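import Mathlib

/-! Signed sums over the permutations of the junctions of a long cycle. -/

namespace Pool.Agent.LocalCount

open Finset Equiv

/-- `π`, a disjoint union of directed cycles, is connected: it is one cycle. -/
def Connected {n : ℕ} (π : Perm (Fin n)) : Prop := ∀ u v, π.SameCycle u v

variable {n r : ℕ}

/-- moving a junction -/
theorem pow_junction {c τ : Perm (Fin n)} {J : Finset (Fin n)}
    (hJ : ∀ p ∈ J, ∀ i, 1 ≤ i → i < r → (c ^ i) p ∉ J)
    (hτ : ∀ v, v ∉ J → τ v = v) (hτJ : ∀ v ∈ J, τ v ∈ J) {p : Fin n} (hp : p ∈ J) :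
    ∀ i, 1 ≤ i → i ≤ r → ((c * τ) ^ i) p = (c ^ i) (τ p) := by
  intro i hi
  induction i, hi using Nat.le_induction with
  | base => intro _; simp
  | succ i hi ih =>
    intro hir
    rw [pow_succ', Perm.mul_apply, ih (by omega), pow_succ' c, Perm.mul_apply, Perm.mul_apply,
      hτ _ (hJ _ (hτJ p hp) i hi (by omega))]

theorem view_eq {c τ τ' : Perm (Fin n)} {J : Finset (Fin n)} {κ : Type} {y : Fin n → κ}
    (hJ : ∀ p ∈ J, ∀ i, 1 ≤ i → i < r → (c ^ i) p ∉ J)
    (hτ : ∀ v, v ∉ J → τ v = v) (hτJ : ∀ v ∈ J, τ v ∈ J)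
    (hτ' : ∀ v, v ∉ J → τ' v = v) (hτJ' : ∀ v ∈ J, τ' v ∈ J)
    (hs : ∀ p ∈ J, ∀ i, 1 ≤ i → i < r → y ((c ^ i) (τ p)) = y ((c ^ i) (τ' p))) :
    ∀ i < r, ∀ v, y (((c * τ) ^ i) v) = y (((c * τ') ^ i) v) := by
  intro i
  induction i with
  | zero => intro _ v; simp
  | succ i ih =>
    intro hir v
    by_cases hv : v ∈ J
    · rw [pow_junction hJ hτ hτJ hv (i+1) (by omega) (by omega),
        pow_junction hJ hτ' hτJ' hv (i+1) (by omega) (by omega)]
      exact hs v hv (i+1) (by omega) hir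
    · rw [pow_succ, pow_succ, Perm.mul_apply, Perm.mul_apply, Perm.mul_apply, Perm.mul_apply,
        hτ v hv, hτ' v hv]
      exact ih (by omega) (c v)

theorem mem_of_fix {τ : Perm (Fin n)} {J : Finset (Fin n)} (hτ : ∀ v, v ∉ J → τ v = v) :
    ∀ v ∈ J, τ v ∈ J := by
  intro v hv
  by_contra h
  have h1 := hτ _ h
  have h2 : τ v = v := τ.injective h1
  rw [h2] at h
  exact h hv

theorem signed_sum {κ : Type} [Fintype κ] {c : Perm (Fin n)} {J : Finset (Fin n)}
    (hJ : ∀ p ∈ J, ∀ i, 1 ≤ i → i < r → (c ^ i) p ∉ J)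
    (hcard : Fintype.card κ ^ (r - 1) < J.card) (y : Fin n → κ) (W : Perm (Fin n) → ℝ)
    (hW : ∀ τ τ' : Perm (Fin n), (∀ v, v ∉ J → τ v = v) → (∀ v, v ∉ J → τ' v = v) →
      (∀ i < r, ∀ v, y (((c * τ) ^ i) v) = y (((c * τ') ^ i) v)) → W τ = W τ') :
    ∑ τ ∈ univ.filter (fun τ : Perm (Fin n) => ∀ v, v ∉ J → τ v = v),
      ((Perm.sign τ : ℤ) : ℝ) * W τ = 0 := by
  classical
  -- pigeonhole
  obtain ⟨p, hp, q, hq, hpq, hs⟩ : ∃ p ∈ J, ∃ q ∈ J, p ≠ q ∧
      (fun i : Fin (r - 1) => y ((c ^ ((i : ℕ) + 1)) p)) =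
        (fun i : Fin (r - 1) => y ((c ^ ((i : ℕ) + 1)) q)) := by
    apply Finset.exists_ne_map_eq_of_card_lt_of_maps_to (t := (univ : Finset (Fin (r-1) → κ)))
    · simpa using hcard
    · intro a _; simp
  have hs' : ∀ i, 1 ≤ i → i < r → y ((c ^ i) p) = y ((c ^ i) q) := by
    intro i h1 h2
    have := congrFun hs ⟨i - 1, by omega⟩
    simpa [Nat.sub_add_cancel h1] using this
  have hsw : ∀ x i, 1 ≤ i → i < r → y ((c ^ i) x) = y ((c ^ i) (swap p q x)) := by
    intro x i h1 h2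
    by_cases hxp : x = p
    · subst hxp; rw [swap_apply_left]; exact hs' i h1 h2
    · by_cases hxq : x = q
      · subst hxq; rw [swap_apply_right]; exact (hs' i h1 h2).symm
      · rw [swap_apply_of_ne_of_ne hxp hxq]
  have hmem : ∀ τ : Perm (Fin n), (∀ v, v ∉ J → τ v = v) → (∀ v, v ∉ J → (swap p q * τ) v = v) := by
    intro τ hτ v hv
    rw [Perm.mul_apply, hτ v hv]
    apply swap_apply_of_ne_of_ne
    · rintro rfl; exact hv hp
    · rintro rfl; exact hv hq
  apply Finset.sum_involution (fun τ _ => swap p q * τ)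
  · intro τ hτ
    simp only [mem_filter, mem_univ, true_and] at hτ
    have hh : W (swap p q * τ) = W τ :=
      hW _ _ (hmem τ hτ) hτ fun i hi v =>
        (view_eq hJ hτ (mem_of_fix hτ) (hmem τ hτ) (mem_of_fix (hmem τ hτ))
          (fun p' _ j h1 h2 => by rw [Perm.mul_apply]; exact hsw _ j h1 h2) i hi v).symm
    rw [hh]
    simp [Perm.sign_mul, Perm.sign_swap hpq]
  · intro τ _ _ h
    have : swap p q = 1 := by
      have := congrArg (· * τ⁻¹) h
      simpa using this
    exact hpq (swap_eq_one_iff.1 this)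
  · intro τ hτ
    simp only [mem_filter, mem_univ, true_and] at hτ ⊢
    exact hmem τ hτ
  · intro τ _
    simp [← mul_assoc]

theorem sum_sign {J : Finset (Fin n)} (hcard : 1 < J.card) :
    ∑ τ ∈ univ.filter (fun τ : Perm (Fin n) => ∀ v, v ∉ J → τ v = v),
      ((Perm.sign τ : ℤ) : ℝ) = 0 := by
  classical
  have h := signed_sum (n := n) (r := 0) (κ := Unit) (c := 1) (J := J)
    (by intro _ _ i _ h; omega) (by simpa using hcard) (fun _ => ()) (fun _ => 1)
    (fun _ _ _ _ _ => rfl)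
  simpa using h

theorem isCycle_of_connected {π : Perm (Fin n)} (hn : 2 ≤ n) (h : Connected π) :
    π.IsCycle ∧ π.support = univ := by
  have hne : ∀ x, π x ≠ x := by
    intro x hx
    have : ∀ v, v = x := by
      intro v
      obtain ⟨i, hi⟩ := h x v
      rw [← hi]
      exact Perm.zpow_apply_eq_self_of_apply_eq_self hx i
    have h0 := this ⟨0, by omega⟩
    have h1 := this ⟨1, by omega⟩
    have := h0.trans h1.symm
    simp at this
  refine ⟨⟨⟨0, by omega⟩, hne _, fun y _ => h _ _⟩, ?_⟩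
  ext x
  simp [hne x]

theorem isConj_of_connected {π σ : Perm (Fin n)} (hn : 2 ≤ n) (h : Connected π)
    (h' : Connected σ) : IsConj π σ := by
  obtain ⟨h1, h2⟩ := isCycle_of_connected hn h
  obtain ⟨h3, h4⟩ := isCycle_of_connected hn h'
  rw [h1.isConj_iff h3, h2, h4]

theorem pow_injOn {c : Perm (Fin n)} (hn : 2 ≤ n) (h : Connected c) (v : Fin n) {a b : ℕ}
    (ha : a < n) (hb : b < n) (hab : (c ^ a) v = (c ^ b) v) : a = b := by
  obtain ⟨h1, h2⟩ := isCycle_of_connected hn h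
  have ho : orderOf c = n := by rw [h1.orderOf, h2]; simp
  have hne : c v ≠ v := by
    have : v ∈ c.support := by rw [h2]; simp
    simpa using this
  wlog hle : a ≤ b generalizing a b
  · exact (this hb ha hab.symm (by omega)).symm
  by_contra hne'
  have hb' : (c ^ (b - a)) v = v := by
    have : (c ^ b) v = (c ^ a) ((c ^ (b - a)) v) := by
      rw [← Perm.mul_apply, ← pow_add]; congr 2; omega
    rw [this] at hab
    exact ((c ^ a).injective hab).symm
  have h3 : c ^ (b - a) = 1 := (h1.pow_eq_one_iff).2 ⟨v, hne, hb'⟩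
  have := orderOf_dvd_of_pow_eq_one h3
  rw [ho] at this
  have := Nat.le_of_dvd (by omega) this
  omega

theorem exists_J {c : Perm (Fin n)} {N : ℕ} (hn : 2 ≤ n) (hr : 1 ≤ r) (hN : r * N ≤ n)
    (h : Connected c) :
    ∃ J : Finset (Fin n), J.card = N ∧ ∀ p ∈ J, ∀ i, 1 ≤ i → i < r → (c ^ i) p ∉ J := by
  classical
  let v : Fin n := ⟨0, by omega⟩
  have hlt : ∀ j i, j < N → i < r → r * j + i < n := by
    intro j i hj hi
    have : r * (j + 1) ≤ r * N := Nat.mul_le_mul_left _ hj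
    rw [Nat.mul_add] at this
    omega
  refine ⟨(range N).image fun j => (c ^ (r * j)) v, ?_, ?_⟩
  · rw [Finset.card_image_of_injOn, card_range]
    intro a ha b hb hab
    simp only [coe_range, Set.mem_Iio] at ha hb
    have := pow_injOn hn h v (by simpa using hlt a 0 ha (by omega))
      (by simpa using hlt b 0 hb (by omega)) hab
    exact Nat.eq_of_mul_eq_mul_left (by omega) this
  · intro p hp i h1 h2 hmem
    simp only [mem_image, mem_range] at hp hmem
    obtain ⟨a, ha, rfl⟩ := hp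
    obtain ⟨b, hb, hb'⟩ := hmem
    rw [← Perm.mul_apply, ← pow_add, add_comm] at hb'
    have := pow_injOn hn h v (by simpa using hlt b 0 hb (by omega)) (hlt a i ha h2) hb'
    have h3 : (r * b) % r = (r * a + i) % r := by rw [this]
    rw [Nat.mul_mod_right, Nat.mul_add_mod, Nat.mod_eq_of_lt h2] at h3
    omega

theorem long_cycles {c τ : Perm (Fin n)} {J : Finset (Fin n)} (hJne : J.Nonempty)
    (hJ : ∀ p ∈ J, ∀ i, 1 ≤ i → i < r → (c ^ i) p ∉ J)
    (hτ : ∀ v, v ∉ J → τ v = v) (hc : Connected c) (v : Fin n) :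
    r ≤ Function.minimalPeriod (c * τ) v := by
  by_contra hlt
  push Not at hlt
  set m := Function.minimalPeriod (c * τ) v with hm
  have hmpos : 0 < m := by
    apply Function.minimalPeriod_pos_of_mem_periodicPts
    exact Function.Injective.mem_periodicPts (c * τ).injective v
  have hper : ((c * τ) ^ m) v = v := by
    have := Function.isPeriodicPt_minimalPeriod (c * τ) v
    rw [← hm] at this
    have h2 : (⇑(c * τ))^[m] v = v := this
    rwa [Perm.iterate_eq_pow] at h2
  by_cases hex : ∃ j : ℕ, ((c * τ) ^ j) v ∈ J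
  · obtain ⟨j, hj⟩ := hex
    have h1 : ((c * τ) ^ m) (((c * τ) ^ j) v) = ((c * τ) ^ j) v := by
      rw [← Perm.mul_apply, ← pow_add, add_comm, pow_add, Perm.mul_apply, hper]
    rw [pow_junction hJ hτ (mem_of_fix hτ) hj m hmpos hlt.le] at h1
    have h2 := hJ _ (mem_of_fix hτ _ hj) m hmpos hlt
    rw [h1] at h2
    exact h2 hj
  · push Not at hex
    have hall : ∀ j : ℕ, ((c * τ) ^ j) v = (c ^ j) v := by
      intro j
      induction j with
      | zero => simp
      | succ j ih =>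
        rw [pow_succ', Perm.mul_apply, Perm.mul_apply, hτ _ (hex j), ih, pow_succ' c,
          Perm.mul_apply]
    obtain ⟨p, hp⟩ := hJne
    obtain ⟨j, _, hj⟩ := (hc v p).exists_pow_eq'
    exact hex j (by rw [hall j, hj]; exact hp)

/-- **The abstract theorem.** -/
theorem abstract {κ : Type} [Fintype κ] [Nonempty κ] (hr : 1 ≤ r)
    (hn : r * (Fintype.card κ ^ (r - 1) + 1) ≤ n) (W : Perm (Fin n) → (Fin n → κ) → ℝ)
    (hconj : ∀ (π g : Perm (Fin n)) (y : Fin n → κ), W (g * π * g⁻¹) y = W π (y ∘ g))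
    (hloc : ∀ (π π' : Perm (Fin n)) (y : Fin n → κ), (∀ v, r ≤ Function.minimalPeriod π v) →
      (∀ v, r ≤ Function.minimalPeriod π' v) →
      (∀ i < r, ∀ v, y ((π ^ i) v) = y ((π' ^ i) v)) → W π y = W π' y)
    (t : ℝ)
    (H : ∀ π : Perm (Fin n), (∀ v, r ≤ Function.minimalPeriod π v) → ¬ Connected π →
      ∑ y, W π y = t) :
    ∀ π : Perm (Fin n), Connected π → ∑ y, W π y = t := by
  classical
  intro c hc
  have hF : ∀ σ, IsConj c σ → ∑ y, W σ y = ∑ y, W c y := by
    intro σ hσ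
    obtain ⟨g, rfl⟩ := isConj_iff.1 hσ
    simp only [hconj]
    exact Fintype.sum_equiv (Equiv.arrowCongr g⁻¹ (Equiv.refl _)) _ _ (by
      intro y; congr 1)
  have hk1 : 1 ≤ Fintype.card κ ^ (r - 1) := Nat.one_le_pow _ _ Fintype.card_pos
  have hn2 : 2 ≤ n := by nlinarith
  obtain ⟨J, hJc, hJ⟩ := exists_J (r := r) (N := Fintype.card κ ^ (r - 1) + 1) hn2 hr hn hc
  have hJne : J.Nonempty := Finset.card_pos.1 (by omega)
  set T := univ.filter (fun τ : Perm (Fin n) => ∀ v, v ∉ J → τ v = v) with hT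
  have h1 : ∑ τ ∈ T, ((Perm.sign τ : ℤ) : ℝ) * ∑ y, W (c * τ) y = 0 := by
    simp only [Finset.mul_sum]
    rw [Finset.sum_comm]
    apply Finset.sum_eq_zero
    intro y _
    exact signed_sum hJ (by omega) y (fun τ => W (c * τ) y) fun τ τ' hτ hτ' h =>
      hloc _ _ y (long_cycles hJne hJ hτ hc) (long_cycles hJne hJ hτ' hc) h
  have h2 : ∑ τ ∈ T, ((Perm.sign τ : ℤ) : ℝ) = 0 := sum_sign (by omega)
  have h3 : ∑ τ ∈ T, ((Perm.sign τ : ℤ) : ℝ) * (∑ y, W (c * τ) y - t) = 0 := by
    simp only [mul_sub, Finset.sum_sub_distrib, ← Finset.sum_mul, h1, h2]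
    simp
  have h4 : ∀ τ ∈ T, ((Perm.sign τ : ℤ) : ℝ) * (∑ y, W (c * τ) y - t) =
      if Connected (c * τ) then ∑ y, W c y - t else 0 := by
    intro τ hτ
    simp only [hT, mem_filter, mem_univ, true_and] at hτ
    split_ifs with hcon
    · have hc2 := isConj_of_connected hn2 hc hcon
      have hsig : Perm.sign (c * τ) = Perm.sign c := by
        have := (Perm.sign : Perm (Fin n) →* ℤˣ).map_isConj hc2
        exact (isConj_iff_eq.1 this).symm
      rw [Perm.sign_mul] at hsig
      have hs1 : Perm.sign τ = 1 := by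
        simpa using hsig
      rw [hs1, hF _ hc2]
      simp
    · rw [H _ (long_cycles hJne hJ hτ hc) hcon]
      simp
  rw [Finset.sum_congr rfl h4, ← Finset.sum_filter, Finset.sum_const, nsmul_eq_mul] at h3
  have hpos : 0 < (T.filter fun τ => Connected (c * τ)).card := by
    apply Finset.card_pos.2
    refine ⟨1, ?_⟩
    simp [hT, hc]
  have : ((T.filter fun τ => Connected (c * τ)).card : ℝ) ≠ 0 := by
    exact_mod_cast hpos.ne'
  have := (mul_eq_zero.1 h3).resolve_left this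
  linarith

end Pool.Agent.LocalCount
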