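import Pool.Agent.Lib.MP_d404e6_lc.Logic

/-! Back-and-forth for permutations with the same local windows. -/

namespace Pool.Agent.LocalCount

open Finset Equiv

theorem card_image_le_of {ι α β : Type} [DecidableEq α] [DecidableEq β] (I : Finset ι)
    (f : ι → α) (g : ι → β) (h : ∀ i ∈ I, ∀ j ∈ I, f i = f j → g i = g j) :
    (I.image g).card ≤ (I.image f).card := by
  apply Finset.card_le_card_of_forall_subsingleton (fun b a => ∃ i ∈ I, g i = b ∧ f i = a)
  · intro b hb
    rw [Finset.mem_image] at hb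
    obtain ⟨i, hi, rfl⟩ := hb
    exact ⟨f i, Finset.mem_image_of_mem f hi, i, hi, rfl, rfl⟩
  · intro a _ b hb b' hb'
    obtain ⟨-, i, hi, rfl, hfi⟩ := hb
    obtain ⟨-, j, hj, rfl, hfj⟩ := hb'
    exact h i hi j hj (hfi.trans hfj.symm)

variable {n : ℕ} {κ : Type}

/-- `S` is a set of pairs of points which look the same up to distance `D`. -/
def Good (π π' : Perm (Fin n)) (col : Fin n → κ) (D : ℕ) (S : Set (Fin n × Fin n)) : Prop :=
  (∀ p ∈ S, ∀ d : ℤ, |d| ≤ D → col ((π ^ d) p.1) = col ((π' ^ d) p.2)) ∧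
  (∀ p ∈ S, ∀ r ∈ S, ∀ d : ℤ, |d| ≤ D → ((π ^ d) p.1 = r.1 ↔ (π' ^ d) p.2 = r.2))

theorem Good.symm {π π' : Perm (Fin n)} {col : Fin n → κ} {D : ℕ} {S : Set (Fin n × Fin n)}
    (h : Good π π' col D S) : Good π' π col D {p | (p.2, p.1) ∈ S} :=
  ⟨fun p hp d hd => (h.1 _ hp d hd).symm, fun p hp r hr d hd => (h.2 _ hp _ hr d hd).symm⟩

theorem zadd (π : Perm (Fin n)) (a b : ℤ) (v : Fin n) : (π ^ a) ((π ^ b) v) = (π ^ (a + b)) v := by
  rw [zpow_add, Perm.mul_apply]

theorem zeq (π : Perm (Fin n)) (a b : ℤ) (v w : Fin n) :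
    (π ^ a) v = (π ^ b) w ↔ (π ^ (a - b)) v = w := by
  constructor
  · intro h
    have := congrArg (fun x => (π ^ (-b)) x) h
    simp only [zadd] at this
    rw [show a - b = -b + a by ring, this]
    simp
  · intro h
    rw [← h, zadd]
    congr 2
    ring

theorem Good.ext {π π' : Perm (Fin n)} {col : Fin n → κ} {D : ℕ} {S : Set (Fin n × Fin n)}
    (hβ : ∃ β : Perm (Fin n), ∀ v (d : ℤ), |d| ≤ D → col ((π' ^ d) (β v)) = col ((π ^ d) v))
    (hl : ∀ v (d : ℤ), d ≠ 0 → |d| ≤ D → (π ^ d) v ≠ v)
    (hl' : ∀ v (d : ℤ), d ≠ 0 → |d| ≤ D → (π' ^ d) v ≠ v)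
    (h : Good π π' col (5 * D) S) (x : Fin n) :
    ∃ y, Good π π' col D (insert (x, y) S) := by
  classical
  by_cases hnear : ∃ p ∈ S, ∃ e : ℤ, |e| ≤ 2 * D ∧ (π ^ e) p.1 = x
  · obtain ⟨p, hp, e, he, rfl⟩ := hnear
    refine ⟨(π' ^ e) p.2, ?_⟩
    have hrep : ∀ s ∈ insert ((π ^ e) p.1, (π' ^ e) p.2) S, ∃ s' ∈ S, ∃ a : ℤ, |a| ≤ 2 * D ∧
        s.1 = (π ^ a) s'.1 ∧ s.2 = (π' ^ a) s'.2 := by
      intro s hs
      rcases hs with rfl | hs
      · exact ⟨p, hp, e, he, rfl, rfl⟩
      · exact ⟨s, hs, 0, by simp, by simp, by simp⟩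
    refine ⟨?_, ?_⟩
    · intro s hs d hd
      obtain ⟨s', hs', a, ha, h1, h2⟩ := hrep s hs
      rw [h1, h2, zadd, zadd]
      apply h.1 s' hs'
      rw [abs_le] at *
      push_cast
      constructor <;> linarith
    · intro s hs u hu d hd
      obtain ⟨s', hs', a, ha, h1, h2⟩ := hrep s hs
      obtain ⟨u', hu', b, hb, h3, h4⟩ := hrep u hu
      rw [h1, h2, h3, h4, zadd, zadd, zeq, zeq]
      apply h.2 s' hs' u' hu'
      rw [abs_le] at *
      push_cast
      constructor <;> linarith
  · push Not at hnear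
    obtain ⟨y, hy1, hy2⟩ : ∃ y, (∀ d : ℤ, |d| ≤ D → col ((π' ^ d) y) = col ((π ^ d) x)) ∧
        ∀ p ∈ S, ∀ e : ℤ, |e| ≤ 2 * D → (π' ^ e) p.2 ≠ y := by
      by_contra hcon
      push Not at hcon
      obtain ⟨β, hβ⟩ := hβ
      let P : Fin n → Prop := fun v => ∀ d : ℤ, |d| ≤ D → col ((π ^ d) v) = col ((π ^ d) x)
      let P' : Fin n → Prop := fun v => ∀ d : ℤ, |d| ≤ D → col ((π' ^ d) v) = col ((π ^ d) x)
      let I : Finset ((Fin n × Fin n) × ℤ) := S.toFinset ×ˢ Finset.Icc (-(2 * D : ℤ)) (2 * D)
      let f : (Fin n × Fin n) × ℤ → Fin n := fun i => (π ^ i.2) i.1.1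
      let f' : (Fin n × Fin n) × ℤ → Fin n := fun i => (π' ^ i.2) i.1.2
      have hI : ∀ i, i ∈ I ↔ i.1 ∈ S ∧ |i.2| ≤ 2 * D := by
        intro i
        simp only [I, Finset.mem_product, Set.mem_toFinset, Finset.mem_Icc, abs_le]
      have hPP : ∀ i ∈ I, (P (f i) ↔ P' (f' i)) := by
        intro i hi
        rw [hI] at hi
        apply forall_congr'
        intro d
        apply imp_congr_right
        intro hd
        have : col ((π ^ d) (f i)) = col ((π' ^ d) (f' i)) := by
          simp only [f, f', zadd]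
          apply h.1 _ hi.1
          have h2 := hi.2
          rw [abs_le] at *
          push_cast
          constructor <;> linarith
        rw [this]
      have hfact : ∀ i ∈ I.filter (fun i => P (f i)), ∀ j ∈ I.filter (fun i => P (f i)),
          f i = f j → f' i = f' j := by
        intro i hi j hj hij
        rw [Finset.mem_filter, hI] at hi hj
        simp only [f, f'] at hij ⊢
        rw [zeq] at hij ⊢
        refine (h.2 _ hi.1.1 _ hj.1.1 _ ?_).1 hij
        have h2 := hi.1.2
        have h3 := hj.1.2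
        rw [abs_le] at *
        push_cast
        constructor <;> linarith
      have h1 := card_image_le_of (I.filter (fun i => P (f i))) f f' hfact
      have h2 : (I.filter (fun i => P (f i))).image f ⊆ (univ.filter P).erase x := by
        intro v hv
        rw [Finset.mem_image] at hv
        obtain ⟨i, hi, rfl⟩ := hv
        rw [Finset.mem_filter, hI] at hi
        rw [Finset.mem_erase, Finset.mem_filter]
        exact ⟨hnear _ hi.1.1 _ hi.1.2, Finset.mem_univ _, hi.2⟩
      have h3 : (univ.filter P') ⊆ (I.filter (fun i => P (f i))).image f' := by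
        intro v hv
        rw [Finset.mem_filter] at hv
        obtain ⟨p, hp, e, he, hpe⟩ := hcon v hv.2
        rw [Finset.mem_image]
        have hmem : ((p, e) : (Fin n × Fin n) × ℤ) ∈ I := (hI _).2 ⟨hp, he⟩
        refine ⟨(p, e), ?_, hpe⟩
        rw [Finset.mem_filter]
        refine ⟨hmem, (hPP _ hmem).2 ?_⟩
        have : f' (p, e) = v := hpe
        rw [this]
        exact hv.2
      have h4 : (univ.filter P).card = (univ.filter P').card := by
        apply Finset.card_bij (fun v _ => β v)
        · intro v hv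
          rw [Finset.mem_filter] at hv ⊢
          exact ⟨Finset.mem_univ _, fun d hd => (hβ v d hd).trans (hv.2 d hd)⟩
        · intro a _ b _ hab
          exact β.injective hab
        · intro b hb
          rw [Finset.mem_filter] at hb
          refine ⟨β.symm b, ?_, by simp⟩
          rw [Finset.mem_filter]
          refine ⟨Finset.mem_univ _, fun d hd => ?_⟩
          rw [← hβ (β.symm b) d hd]
          simpa using hb.2 d hd
      have hx : x ∈ univ.filter P := by
        rw [Finset.mem_filter]
        exact ⟨Finset.mem_univ _, fun d _ => rfl⟩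
      have h5 := Finset.card_le_card h2
      have h6 := Finset.card_le_card h3
      have h7 := Finset.card_erase_lt_of_mem hx
      omega
    refine ⟨y, ?_, ?_⟩
    · intro s hs d hd
      rcases hs with rfl | hs
      · exact (hy1 d hd).symm
      · apply h.1 s hs
        push_cast
        have : (0 : ℤ) ≤ D := Int.natCast_nonneg D
        linarith
    · intro s hs u hu d hd
      have hD0 : (0 : ℤ) ≤ D := Int.natCast_nonneg D
      rcases hs with rfl | hs <;> rcases hu with rfl | hu
      · by_cases hd0 : d = 0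
        · subst hd0; simp
        · exact iff_of_false (hl x d hd0 hd) (hl' y d hd0 hd)
      · refine iff_of_false ?_ ?_
        · intro hx
          apply hnear u hu (-d) (by rw [abs_neg]; linarith)
          have hx' : (π ^ d) x = u.1 := hx
          rw [← hx', zadd]; simp
        · intro hx
          apply hy2 u hu (-d) (by rw [abs_neg]; linarith)
          have hx' : (π' ^ d) y = u.2 := hx
          rw [← hx', zadd]; simp
      · exact iff_of_false (hnear s hs d (by linarith)) (hy2 s hs d (by linarith))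
      · apply h.2 s hs u hu
        push_cast
        linarith

end Pool.Agent.LocalCount
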