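import Pool.Agent.Lib.LocalCount.CnfDefs
import Pool.Agent.Lib.LocalCount.Hanf
import Pool.Agent.Lib.LocalCount.Abstract

/-! SAT is in monadic NP, but no monadic exact counting scheme decides it. -/

namespace Pool.Agent.LocalCount.Cnf

open Finset Equiv FirstOrder Pool.Agent.MIP Pool.Agent.LocalCount

/-- Variables, implication clauses, two long clauses. -/
abbrev U (n : ℕ) : Type := Fin n ⊕ Fin n ⊕ Bool

def posR {n : ℕ} (π : Perm (Fin n)) : U n → U n → Prop
  | .inr (.inl v), .inl w => π v = w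
  | .inr (.inr true), .inl _ => True
  | _, _ => False

def negR {n : ℕ} : U n → U n → Prop
  | .inr (.inl v), .inl w => v = w
  | .inr (.inr false), .inl _ => True
  | _, _ => False

def clR {n : ℕ} : U n → Prop
  | .inr _ => True
  | _ => False

/-- The formula `⋀ (v → π v) ∧ ⋁ v ∧ ⋁ ¬ v`. -/
@[reducible] def cnfStr {n : ℕ} (π : Perm (Fin n)) : cnf.Structure (U n) where
  funMap := fun {_} f => Empty.elim f
  RelMap
    | .clause => fun x => clR (x 0)
    | .pos => fun x => posR π (x 0) (x 1)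
    | .neg => fun x => negR (x 0) (x 1)

theorem satisfiable_iff {n : ℕ} (π : Perm (Fin n)) :
    @Satisfiable (U n) (cnfStr π) ↔ ¬ Connected π := by
  unfold Satisfiable
  constructor
  · rintro ⟨X, hX⟩ hc
    have h1 := hX (.inr (.inr true)) trivial
    have h2 := hX (.inr (.inr false)) trivial
    obtain ⟨x, ⟨hx1, hx2⟩ | ⟨hx1, -⟩⟩ := h1
    swap
    · rcases x with v | v | b
      · exact (show False from hx1)
      · exact (show False from hx1)
      · exact (show False from hx1)
    obtain ⟨z, ⟨hz1, -⟩ | ⟨hz1, hz2⟩⟩ := h2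
    · rcases z with v | v | b
      · exact (show False from hz1)
      · exact (show False from hz1)
      · exact (show False from hz1)
    rcases x with a | v | b
    swap
    · exact (show False from hx1)
    swap
    · exact (show False from hx1)
    rcases z with b | v | v
    swap
    · exact (show False from hz1)
    swap
    · exact (show False from hz1)
    have hstep : ∀ v, (Sum.inl v : U n) ∈ X → (Sum.inl (π v) : U n) ∈ X := by
      intro v hv
      obtain ⟨x, ⟨hx1, hx2⟩ | ⟨hx1, hx2⟩⟩ := hX (.inr (.inl v)) trivial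
      · rcases x with w | w | w
        · have : π v = w := hx1
          rw [this]; exact hx2
        · exact (show False from hx1).elim
        · exact (show False from hx1).elim
      · rcases x with w | w | w
        · have : v = w := hx1
          rw [← this] at hx2
          exact (hx2 hv).elim
        · exact (show False from hx1).elim
        · exact (show False from hx1).elim
    have hall : ∀ i : ℕ, (Sum.inl ((π ^ i) a) : U n) ∈ X := by
      intro i
      induction i with
      | zero => simpa using hx2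
      | succ i ih => rw [pow_succ', Perm.mul_apply]; exact hstep _ ih
    obtain ⟨i, _, hi⟩ := (hc a b).exists_pow_eq'
    have := hall i
    rw [hi] at this
    exact hz2 this
  · intro h
    unfold Connected at h
    push Not at h
    obtain ⟨a, b, hab⟩ := h
    refine ⟨{x | ∃ v, x = .inl v ∧ π.SameCycle a v}, ?_⟩
    rintro (v | v | (_ | _)) hc
    · exact (show False from hc).elim
    · by_cases hv : π.SameCycle a v
      · exact ⟨.inl (π v), Or.inl ⟨(rfl : π v = π v), π v, rfl, by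
          rw [Perm.sameCycle_apply_right]; exact hv⟩⟩
      · refine ⟨.inl v, Or.inr ⟨(rfl : v = v), ?_⟩⟩
        rintro ⟨w, hw, hw2⟩
        rw [Sum.inl.injEq] at hw
        rw [← hw] at hw2
        exact hv hw2
    · refine ⟨.inl b, Or.inr ⟨trivial, ?_⟩⟩
      rintro ⟨w, hw, hw2⟩
      rw [Sum.inl.injEq] at hw
      rw [← hw] at hw2
      exact hab hw2
    · exact ⟨.inl a, Or.inl ⟨trivial, a, rfl, Perm.SameCycle.refl _ _⟩⟩

theorem holds_iff_of_ef {n k : ℕ} {π π' : Perm (Fin n)} {X X' : Fin k → Set (U n)}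
    (F : ℕ → Set (U n × U n) → Prop)
    (heq : ∀ m R, F m R → ∀ p ∈ R, ∀ r ∈ R, (p.1 = r.1 ↔ p.2 = r.2))
    (hcl : ∀ m R, F m R → ∀ p ∈ R, (clR p.1 ↔ clR p.2))
    (hpos : ∀ m R, F m R → ∀ p ∈ R, ∀ r ∈ R, (posR π p.1 r.1 ↔ posR π' p.2 r.2))
    (hneg : ∀ m R, F m R → ∀ p ∈ R, ∀ r ∈ R, (negR p.1 r.1 ↔ negR p.2 r.2))
    (hset : ∀ m R, F m R → ∀ p ∈ R, ∀ i, (p.1 ∈ X i ↔ p.2 ∈ X' i))
    (hf : ∀ m R, F (m + 1) R → ∀ x, ∃ y R', F m R' ∧ R ⊆ R' ∧ (x, y) ∈ R')
    (hb : ∀ m R, F (m + 1) R → ∀ y, ∃ x R', F m R' ∧ R ⊆ R' ∧ (x, y) ∈ R')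
    (θ : (cnf.sum (setLang (Fin k))).Sentence) (q : ℕ) (hq : qrank θ ≤ q)
    (h0 : F q ∅) : @Holds cnf (Fin k) Empty (U n) (cnfStr π) X θ Empty.elim ↔
      @Holds cnf (Fin k) Empty (U n) (cnfStr π') X' θ Empty.elim := by
  unfold Holds FirstOrder.Language.Formula.Realize
  refine @ef (cnf.sum (setLang (Fin k))) (fun n => ⟨?_⟩) (U n) (U n)
    (@FirstOrder.Language.sumStructure cnf (setLang (Fin k)) (U n) (cnfStr π) (setStr X))
    (@FirstOrder.Language.sumStructure cnf (setLang (Fin k)) (U n) (cnfStr π') (setStr X'))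
    F heq ?_ hf hb Empty 0 θ q hq ∅ h0 Empty.elim Empty.elim
    (@default (Fin 0 → U n) Unique.instInhabited) (@default (Fin 0 → U n) Unique.instInhabited)
    (fun a => a.elim) (fun i => i.elim0)
  · rintro (g | g)
    · exact Empty.elim g
    · exact Empty.elim g
  · intro m R hR l S w w' hw
    rcases S with S | S
    · match l, S, w, w', hw with
      | _, .clause, w, w', hw => exact hcl m R hR _ (hw 0)
      | _, .pos, w, w', hw => exact hpos m R hR _ (hw 0) _ (hw 1)
      | _, .neg, w, w', hw => exact hneg m R hR _ (hw 0) _ (hw 1)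
    · match l, S, w, w', hw with
      | 0, S, _, _, _ => exact Empty.elim S
      | 1, S, w, w', hw => exact hset m R hR _ (hw 0) S
      | _ + 2, S, _, _, _ => exact Empty.elim S

/-- Pairs of elements over a set of pairs of points. -/
inductive Over {n : ℕ} (S : Set (Fin n × Fin n)) : U n → U n → Prop
  | var {v v' : Fin n} (h : (v, v') ∈ S) : Over S (.inl v) (.inl v')
  | cla {v v' : Fin n} (h : (v, v') ∈ S) : Over S (.inr (.inl v)) (.inr (.inl v'))
  | big (b : Bool) : Over S (.inr (.inr b)) (.inr (.inr b))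

theorem Over.mono {n : ℕ} {S S' : Set (Fin n × Fin n)} (h : S ⊆ S') {x y : U n}
    (hx : Over S x y) : Over S' x y := by
  cases hx with
  | var h1 => exact .var (h h1)
  | cla h1 => exact .cla (h h1)
  | big b => exact .big b

/-- The sets with the labels `y` (of variables and implication clauses) and `z`. -/
def toSets {n k : ℕ} (z : Bool → Fin k → Bool) (y : Fin n → (Fin k → Bool) × (Fin k → Bool))
    (i : Fin k) : Set (U n) :=
  {x | match x with
    | .inl v => (y v).1 i = true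
    | .inr (.inl v) => (y v).2 i = true
    | .inr (.inr b) => z b i = true}

theorem holds_conj {n k : ℕ} (π g : Perm (Fin n)) (z : Bool → Fin k → Bool)
    (y : Fin n → (Fin k → Bool) × (Fin k → Bool))
    (θ : (cnf.sum (setLang (Fin k))).Sentence) :
    @Holds cnf (Fin k) Empty (U n) (cnfStr (g * π * g⁻¹)) (toSets z y) θ Empty.elim ↔
      @Holds cnf (Fin k) Empty (U n) (cnfStr π) (toSets z (y ∘ g)) θ Empty.elim := by
  symm
  let φ : U n ≃ U n := Equiv.sumCongr g (Equiv.sumCongr g (Equiv.refl Bool))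
  apply holds_iff_of_ef (fun _ R => ∀ p ∈ R, p.2 = φ p.1) (q := qrank θ) (hq := le_rfl)
  · intro _ R hR p hp r hr
    rw [hR p hp, hR r hr]
    simp
  · intro _ R hR p hp
    rw [hR p hp]
    rcases p.1 with v | v | v <;> exact Iff.rfl
  · intro _ R hR p hp r hr
    rw [hR p hp, hR r hr]
    rcases p.1 with v | v | (_ | _) <;> rcases r.1 with w | w | w <;> try exact Iff.rfl
    change π v = w ↔ (g * π * g⁻¹) (g v) = g w
    simp [Perm.mul_apply]
  · intro _ R hR p hp r hr
    rw [hR p hp, hR r hr]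
    rcases p.1 with v | v | (_ | _) <;> rcases r.1 with w | w | w <;> try exact Iff.rfl
    change v = w ↔ g v = g w
    simp
  · intro _ R hR p hp i
    rw [hR p hp]
    rcases p.1 with v | v | v <;> exact Iff.rfl
  · intro m R hR x
    refine ⟨φ x, insert (x, φ x) R, ?_, Set.subset_insert _ _, Set.mem_insert _ _⟩
    rintro p (rfl | hp)
    · rfl
    · exact hR p hp
  · intro m R hR x
    refine ⟨φ.symm x, insert (φ.symm x, x) R, ?_, Set.subset_insert _ _, Set.mem_insert _ _⟩
    rintro p (rfl | hp)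
    · simp
    · exact hR p hp
  · intro p hp
    exact absurd hp (Set.notMem_empty p)

theorem Good.mono {n : ℕ} {κ : Type} {π π' : Perm (Fin n)} {col : Fin n → κ} {D D' : ℕ}
    {S : Set (Fin n × Fin n)} (h : Good π π' col D S) (hD : D' ≤ D) : Good π π' col D' S := by
  have : (D' : ℤ) ≤ D := by exact_mod_cast hD
  exact ⟨fun p hp d hd => h.1 p hp d (hd.trans this),
    fun p hp r hr d hd => h.2 p hp r hr d (hd.trans this)⟩

theorem hlong {n r q : ℕ} (hr : 2 * 5 ^ q + 1 ≤ r) (σ : Perm (Fin n))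
    (hσ : ∀ v, r ≤ Function.minimalPeriod σ v) :
    ∀ m ≤ q, ∀ v (d : ℤ), d ≠ 0 → |d| ≤ ((5 ^ m : ℕ) : ℤ) → (σ ^ d) v ≠ v := by
  intro m hm v d hd0 hd hfix
  have h5 : 5 ^ m ≤ 5 ^ q := Nat.pow_le_pow_right (by norm_num) hm
  have hnat : (σ ^ d.natAbs) v = v := by
    rcases Int.natAbs_eq d with h | h
    · rw [h, zpow_natCast] at hfix
      exact hfix
    · rw [h, zpow_neg, zpow_natCast] at hfix
      have := congrArg (fun x => (σ ^ d.natAbs) x) hfix
      simpa using this.symm
  have hper : Function.IsPeriodicPt σ d.natAbs v := by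
    unfold Function.IsPeriodicPt Function.IsFixedPt
    rw [Perm.iterate_eq_pow]
    exact hnat
  have h1 := hper.minimalPeriod_le (by omega)
  have h2 := hσ v
  have h3 : (d.natAbs : ℤ) ≤ ((5 ^ m : ℕ) : ℤ) := by rwa [Int.natCast_natAbs]
  have h4 : d.natAbs ≤ 5 ^ m := by exact_mod_cast h3
  omega

theorem hwin {n r q : ℕ} {κ : Type} (hr : 2 * 5 ^ q + 1 ≤ r) (y : Fin n → κ)
    (σ σ' : Perm (Fin n)) (hσ : ∀ i < r, ∀ v, y ((σ ^ i) v) = y ((σ' ^ i) v)) :
    ∀ m ≤ q, ∃ β : Perm (Fin n), ∀ v (d : ℤ), |d| ≤ ((5 ^ m : ℕ) : ℤ) →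
      y ((σ' ^ d) (β v)) = y ((σ ^ d) v) := by
  intro m hm
  have h5 : 5 ^ m ≤ 5 ^ q := Nat.pow_le_pow_right (by norm_num) hm
  refine ⟨σ' ^ ((5 ^ m : ℕ) : ℤ) * σ ^ (-((5 ^ m : ℕ) : ℤ)), fun v d hd => ?_⟩
  rw [abs_le] at hd
  obtain ⟨j, hj⟩ : ∃ j : ℕ, (j : ℤ) = d + ((5 ^ m : ℕ) : ℤ) :=
    ⟨(d + ((5 ^ m : ℕ) : ℤ)).toNat, Int.toNat_of_nonneg (by linarith)⟩
  have hjr : j < r := by
    have h6 : (j : ℤ) ≤ 2 * ((5 ^ m : ℕ) : ℤ) := by linarith
    have h7 : j ≤ 2 * 5 ^ m := by exact_mod_cast h6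
    omega
  have h8 := hσ j hjr ((σ ^ (-((5 ^ m : ℕ) : ℤ))) v)
  rw [Perm.mul_apply, zadd, ← hj, zpow_natCast, ← h8, ← zpow_natCast, hj, zadd]
  congr 3
  ring

/-- Permutations with long cycles and the same forward windows satisfy the same sentences. -/
theorem holds_local {n k q r : ℕ} (hr : 2 * 5 ^ q + 1 ≤ r) (π π' : Perm (Fin n))
    (z : Bool → Fin k → Bool) (y : Fin n → (Fin k → Bool) × (Fin k → Bool))
    (hl : ∀ v, r ≤ Function.minimalPeriod π v) (hl' : ∀ v, r ≤ Function.minimalPeriod π' v)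
    (hw : ∀ i < r, ∀ v, y ((π ^ i) v) = y ((π' ^ i) v))
    (θ : (cnf.sum (setLang (Fin k))).Sentence) (hq : qrank θ ≤ q) :
    @Holds cnf (Fin k) Empty (U n) (cnfStr π) (toSets z y) θ Empty.elim ↔
      @Holds cnf (Fin k) Empty (U n) (cnfStr π') (toSets z y) θ Empty.elim := by
  have hG0 : ∀ m S, Good π π' y (5 ^ m) S → ∀ v v' w w', (v, v') ∈ S → (w, w') ∈ S →
      (v = w ↔ v' = w') := by
    intro m S hS v v' w w' h1 h2
    simpa using hS.2 _ h1 _ h2 0 (by simp)
  have hG1 : ∀ m S, Good π π' y (5 ^ m) S → ∀ v v' w w', (v, v') ∈ S → (w, w') ∈ S →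
      (π v = w ↔ π' v' = w') := by
    intro m S hS v v' w w' h1 h2
    have h1' : (1 : ℤ) ≤ ((5 ^ m : ℕ) : ℤ) := by exact_mod_cast Nat.one_le_pow _ _ (by norm_num)
    simpa using hS.2 _ h1 _ h2 1 (by simpa using h1')
  have hGc : ∀ m S, Good π π' y (5 ^ m) S → ∀ v v', (v, v') ∈ S → y v = y v' := by
    intro m S hS v v' h1
    simpa using hS.1 _ h1 0 (by simp)
  apply holds_iff_of_ef (fun m R => m ≤ q ∧ ∃ S, Good π π' y (5 ^ m) S ∧
    ∀ p ∈ R, Over S p.1 p.2) (q := q) (hq := hq)
  · rintro m R ⟨_, S, hS, hR⟩ ⟨p1, p2⟩ hp ⟨r1, r2⟩ hs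
    have h1 := hR _ hp
    have h2 := hR _ hs
    simp only at h1 h2 ⊢
    cases h1 with
    | var h1 =>
      cases h2 with
      | var h2 => simpa using hG0 m S hS _ _ _ _ h1 h2
      | cla h2 => simp
      | big b => simp
    | cla h1 =>
      cases h2 with
      | var h2 => simp
      | cla h2 => simpa using hG0 m S hS _ _ _ _ h1 h2
      | big b => simp
    | big b =>
      cases h2 with
      | var h2 => simp
      | cla h2 => simp
      | big b' => simp
  · rintro m R ⟨_, S, hS, hR⟩ ⟨p1, p2⟩ hp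
    have h1 := hR _ hp
    simp only at h1 ⊢
    cases h1 <;> exact Iff.rfl
  · rintro m R ⟨_, S, hS, hR⟩ ⟨p1, p2⟩ hp ⟨r1, r2⟩ hs
    have h1 := hR _ hp
    have h2 := hR _ hs
    simp only at h1 h2 ⊢
    cases h1 with
    | var h1 => cases h2 <;> exact Iff.rfl
    | cla h1 =>
      cases h2 with
      | var h2 => exact hG1 m S hS _ _ _ _ h1 h2
      | cla h2 => exact Iff.rfl
      | big b => exact Iff.rfl
    | big b => cases b <;> cases h2 <;> exact Iff.rfl
  · rintro m R ⟨_, S, hS, hR⟩ ⟨p1, p2⟩ hp ⟨r1, r2⟩ hs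
    have h1 := hR _ hp
    have h2 := hR _ hs
    simp only at h1 h2 ⊢
    cases h1 with
    | var h1 => cases h2 <;> exact Iff.rfl
    | cla h1 =>
      cases h2 with
      | var h2 => exact hG0 m S hS _ _ _ _ h1 h2
      | cla h2 => exact Iff.rfl
      | big b => exact Iff.rfl
    | big b => cases b <;> cases h2 <;> exact Iff.rfl
  · rintro m R ⟨_, S, hS, hR⟩ ⟨p1, p2⟩ hp i
    have h1 := hR _ hp
    simp only at h1 ⊢
    cases h1 with
    | var h1 =>
      change (y _).1 i = true ↔ (y _).1 i = true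
      rw [hGc m S hS _ _ h1]
    | cla h1 =>
      change (y _).2 i = true ↔ (y _).2 i = true
      rw [hGc m S hS _ _ h1]
    | big b => exact Iff.rfl
  · rintro m R ⟨hm, S, hS, hR⟩ x
    have hS' : Good π π' y (5 * 5 ^ m) S := by rwa [pow_succ'] at hS
    have hpow : 5 ^ m ≤ 5 * 5 ^ m := by omega
    have hext : ∀ v, ∃ v', Good π π' y (5 ^ m) (insert (v, v') S) := fun v =>
      hS'.ext (hwin hr y π π' hw m (by omega)) (hlong hr π hl m (by omega))
        (hlong hr π' hl' m (by omega)) v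
    rcases x with v | v | b
    · obtain ⟨v', hv'⟩ := hext v
      refine ⟨.inl v', insert (.inl v, .inl v') R, ⟨by omega, _, hv', ?_⟩,
        Set.subset_insert _ _, Set.mem_insert _ _⟩
      rintro p (rfl | hp)
      · exact .var (Set.mem_insert _ _)
      · exact (hR p hp).mono (Set.subset_insert _ _)
    · obtain ⟨v', hv'⟩ := hext v
      refine ⟨.inr (.inl v'), insert (.inr (.inl v), .inr (.inl v')) R, ⟨by omega, _, hv', ?_⟩,
        Set.subset_insert _ _, Set.mem_insert _ _⟩
      rintro p (rfl | hp)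
      · exact .cla (Set.mem_insert _ _)
      · exact (hR p hp).mono (Set.subset_insert _ _)
    · refine ⟨.inr (.inr b), insert (.inr (.inr b), .inr (.inr b)) R,
        ⟨by omega, S, Good.mono hS' hpow, ?_⟩, Set.subset_insert _ _, Set.mem_insert _ _⟩
      rintro p (rfl | hp)
      · exact .big b
      · exact hR p hp
  · rintro m R ⟨hm, S, hS, hR⟩ x
    have hS' : Good π π' y (5 * 5 ^ m) S := by rwa [pow_succ'] at hS
    have hpow : 5 ^ m ≤ 5 * 5 ^ m := by omega
    have hext : ∀ v', ∃ v, Good π π' y (5 ^ m) (insert (v, v') S) := by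
      intro v'
      obtain ⟨v, hv⟩ := hS'.symm.ext (hwin hr y π' π (fun i hi v => (hw i hi v).symm) m (by omega))
        (hlong hr π' hl' m (by omega)) (hlong hr π hl m (by omega)) v'
      refine ⟨v, ?_⟩
      have h1 := hv.symm
      refine ⟨fun p hp => h1.1 p ?_, fun p hp s hs => h1.2 p ?_ s ?_⟩
      · rcases hp with rfl | hp
        · exact Set.mem_insert _ _
        · exact Set.mem_insert_of_mem _ hp
      · rcases hp with rfl | hp
        · exact Set.mem_insert _ _
        · exact Set.mem_insert_of_mem _ hp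
      · rcases hs with rfl | hs
        · exact Set.mem_insert _ _
        · exact Set.mem_insert_of_mem _ hs
    rcases x with v' | v' | b
    · obtain ⟨v, hv⟩ := hext v'
      refine ⟨.inl v, insert (.inl v, .inl v') R, ⟨by omega, _, hv, ?_⟩,
        Set.subset_insert _ _, Set.mem_insert _ _⟩
      rintro p (rfl | hp)
      · exact .var (Set.mem_insert _ _)
      · exact (hR p hp).mono (Set.subset_insert _ _)
    · obtain ⟨v, hv⟩ := hext v'
      refine ⟨.inr (.inl v), insert (.inr (.inl v), .inr (.inl v')) R, ⟨by omega, _, hv, ?_⟩,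
        Set.subset_insert _ _, Set.mem_insert _ _⟩
      rintro p (rfl | hp)
      · exact .cla (Set.mem_insert _ _)
      · exact (hR p hp).mono (Set.subset_insert _ _)
    · refine ⟨.inr (.inr b), insert (.inr (.inr b), .inr (.inr b)) R,
        ⟨by omega, S, Good.mono hS' hpow, ?_⟩, Set.subset_insert _ _, Set.mem_insert _ _⟩
      rintro p (rfl | hp)
      · exact .big b
      · exact hR p hp
  · exact ⟨le_rfl, ∅, ⟨fun p hp => absurd hp (Set.notMem_empty p),
      fun p hp => absurd hp (Set.notMem_empty p)⟩, fun p hp => absurd hp (Set.notMem_empty p)⟩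

end Pool.Agent.LocalCount.Cnf
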