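import Pool.Agent.Lib.MP_d404e6_lc.Defs

/-! CNF formulas as structures; monadic exact counting schemes. -/

namespace Pool.Agent.LocalCount

open FirstOrder Pool.Agent.MIP

/-- Symbols of the language of CNF formulas: `c` is a clause, `x` occurs positively in `c`,
`x` occurs negatively in `c`. -/
inductive CnfSym : ℕ → Type
  | clause : CnfSym 1
  | pos : CnfSym 2
  | neg : CnfSym 2

/-- The language of CNF formulas. -/
def cnf : FirstOrder.Language.{0, 0} := ⟨fun _ => Empty, CnfSym⟩

/-- `c` is a clause. -/
def IsClause {V : Type} [cnf.Structure V] (c : V) : Prop :=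
  FirstOrder.Language.Structure.RelMap (L := cnf) (n := 1)
    (show cnf.Relations 1 from CnfSym.clause) ![c]

/-- The variable `x` occurs in `c`. -/
def Pos {V : Type} [cnf.Structure V] (c x : V) : Prop :=
  FirstOrder.Language.Structure.RelMap (L := cnf) (n := 2)
    (show cnf.Relations 2 from CnfSym.pos) ![c, x]

/-- The negation of the variable `x` occurs in `c`. -/
def Neg {V : Type} [cnf.Structure V] (c x : V) : Prop :=
  FirstOrder.Language.Structure.RelMap (L := cnf) (n := 2)
    (show cnf.Relations 2 from CnfSym.neg) ![c, x]

/-- SAT: some set `X` of true variables satisfies all clauses. -/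
def Satisfiable (V : Type) [cnf.Structure V] : Prop :=
  ∃ X : Set V, ∀ c : V, IsClause c → ∃ x : V, (Pos c x ∧ x ∈ X) ∨ (Neg c x ∧ x ∉ X)

/-- The number of `k`-tuples of subsets of the universe which satisfy the sentence `θ`. -/
noncomputable def numSets {L : FirstOrder.Language.{0, 0}} {k : ℕ} (V : Type) [L.Structure V]
    (θ : (L.sum (setLang (Fin k))).Sentence) : ℕ :=
  Nat.card {X : Fin k → Set V // Holds X θ Empty.elim}

/-- A class of finite structures is in monadic NP: it consists of the finite structures in which
at least one tuple of sets satisfies a fixed first-order sentence. -/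
def MonadicNP {L : FirstOrder.Language.{0, 0}} (K : ∀ (V : Type) [L.Structure V], Prop) :
    Prop :=
  ∃ (k : ℕ) (θ : (L.sum (setLang (Fin k))).Sentence), ∀ (V : Type) [Finite V] [L.Structure V],
    K V ↔ 1 ≤ numSets V θ

/-- A monadic exact counting scheme: a real linear combination of numbers of `k`-tuples of sets
satisfying first-order sentences is compared with a threshold. Sentences, coefficients and
threshold may depend on the number `n` of elements of the input in an arbitrary way, but the
quantifier rank of the sentences is bounded. -/
structure ExactScheme (L : FirstOrder.Language.{0, 0}) where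
  k : ℕ
  terms : ℕ
  rank : ℕ
  sentence : ℕ → Fin terms → (L.sum (setLang (Fin k))).Sentence
  sentence_rank : ∀ n j, qrank (sentence n j) ≤ rank
  coef : ℕ → Fin terms → ℝ
  threshold : ℕ → ℝ

/-- The value of the scheme on a finite structure. -/
noncomputable def ExactScheme.value {L : FirstOrder.Language.{0, 0}} (S : ExactScheme L)
    (V : Type) [L.Structure V] : ℝ :=
  ∑ j, S.coef (Nat.card V) j * numSets V (S.sentence (Nat.card V) j)

/-- The scheme decides `K`: the structures in `K` are those with value exactly the threshold. -/
def ExactScheme.Decides {L : FirstOrder.Language.{0, 0}} (S : ExactScheme L)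
    (K : ∀ (V : Type) [L.Structure V], Prop) : Prop :=
  ∀ (V : Type) [Finite V] [L.Structure V], K V ↔ S.value V = S.threshold (Nat.card V)

end Pool.Agent.LocalCount
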