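import Pool.Agent.Lib.LocalCount.Cnf

/-! SAT is in monadic NP, but no monadic exact counting scheme decides it. -/

namespace Pool.Agent.LocalCount.Cnf

open Finset Equiv FirstOrder Pool.Agent.MIP Pool.Agent.LocalCount

/-- Labels and tuples of sets. -/
noncomputable def eqv (n k : ℕ) :
    ((Fin n → (Fin k → Bool) × (Fin k → Bool)) × (Bool → Fin k → Bool)) ≃ (Fin k → Set (U n)) where
  toFun p := toSets p.2 p.1
  invFun X := open Classical in
    (fun v => (fun i => decide ((.inl v : U n) ∈ X i),
      fun i => decide ((.inr (.inl v) : U n) ∈ X i)),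
      fun b i => decide ((.inr (.inr b) : U n) ∈ X i))
  left_inv p := by
    classical
    obtain ⟨y, z⟩ := p
    refine Prod.ext ?_ ?_
    · funext v
      refine Prod.ext ?_ ?_ <;> funext i
      · exact Bool.eq_iff_iff.2 decide_eq_true_iff
      · exact Bool.eq_iff_iff.2 decide_eq_true_iff
    · funext b i
      exact Bool.eq_iff_iff.2 decide_eq_true_iff
  right_inv X := by
    classical
    funext i
    ext x
    rcases x with v | v | b
    · change decide ((.inl v : U n) ∈ X i) = true ↔ _
      simp
    · change decide ((.inr (.inl v) : U n) ∈ X i) = true ↔ _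
      simp
    · change decide ((.inr (.inr b) : U n) ∈ X i) = true ↔ _
      simp

theorem numSets_eq {n k : ℕ} (π : Perm (Fin n)) (θ : (cnf.sum (setLang (Fin k))).Sentence) :
    (@numSets cnf k (U n) (cnfStr π) θ : ℝ) =
      ∑ y : Fin n → (Fin k → Bool) × (Fin k → Bool), ∑ z : Bool → Fin k → Bool,
      (open Classical in if @Holds cnf (Fin k) Empty (U n) (cnfStr π) (toSets z y) θ Empty.elim
        then (1 : ℝ) else 0) := by
  classical
  rw [← Fintype.sum_prod_type (f := fun p : (Fin n → (Fin k → Bool) × (Fin k → Bool)) ×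
      (Bool → Fin k → Bool) =>
      if @Holds cnf (Fin k) Empty (U n) (cnfStr π) (toSets p.2 p.1) θ Empty.elim
        then (1 : ℝ) else 0), Finset.sum_boole]
  unfold numSets
  rw [Nat.card_congr ((eqv n k).subtypeEquiv
    (p := fun p => @Holds cnf (Fin k) Empty (U n) (cnfStr π) (toSets p.2 p.1) θ Empty.elim)
    (fun _ => Iff.rfl)).symm,
    Nat.card_eq_fintype_card, Fintype.card_subtype]

theorem no_scheme (S : ExactScheme cnf) : ¬ S.Decides Satisfiable := by
  classical
  intro hS
  let κ : Type := (Fin S.k → Bool) × (Fin S.k → Bool)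
  let r : ℕ := 2 * 5 ^ S.rank + 1
  let n : ℕ := r * (Fintype.card κ ^ (r - 1) + 1)
  let N : ℕ := Nat.card (U n)
  have hr1 : 1 ≤ r := by simp [r]
  have hk1 : 1 ≤ Fintype.card κ ^ (r - 1) := Nat.one_le_pow _ _ Fintype.card_pos
  have hn2 : 2 ≤ n := by
    have : 1 * 2 ≤ r * (Fintype.card κ ^ (r - 1) + 1) := Nat.mul_le_mul hr1 (by omega)
    simpa [n] using this
  let W : Perm (Fin n) → (Fin n → κ) → ℝ := fun π y => ∑ z : Bool → Fin S.k → Bool,
    ∑ j, S.coef N j * (if @Holds cnf (Fin S.k) Empty (U n) (cnfStr π) (toSets z y)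
      (S.sentence N j) Empty.elim then (1 : ℝ) else 0)
  have hval : ∀ π : Perm (Fin n), @ExactScheme.value cnf S (U n) (cnfStr π) = ∑ y, W π y := by
    intro π
    unfold ExactScheme.value
    have h1 : ∀ j, S.coef N j * (@numSets cnf S.k (U n) (cnfStr π) (S.sentence N j) : ℝ) =
        ∑ y : Fin n → κ, ∑ z : Bool → Fin S.k → Bool, S.coef N j *
          (if @Holds cnf (Fin S.k) Empty (U n) (cnfStr π) (toSets z y)
            (S.sentence N j) Empty.elim then (1 : ℝ) else 0) := by
      intro j
      rw [numSets_eq, Finset.mul_sum]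
      refine Finset.sum_congr rfl fun y _ => ?_
      rw [Finset.mul_sum]
    refine (Finset.sum_congr rfl fun j _ => h1 j).trans ?_
    rw [Finset.sum_comm]
    refine Finset.sum_congr rfl fun y _ => ?_
    rw [Finset.sum_comm]
  have key := abstract (n := n) (r := r) (κ := κ) hr1 le_rfl W
    (fun π g y => by
      refine Finset.sum_congr rfl fun z _ => Finset.sum_congr rfl fun j _ => ?_
      congr 1
      exact if_congr (holds_conj π g z y _) rfl rfl)
    (fun π π' y hl hl' hw => by
      refine Finset.sum_congr rfl fun z _ => Finset.sum_congr rfl fun j _ => ?_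
      congr 1
      exact if_congr (holds_local (q := S.rank) le_rfl π π' z y hl hl' hw _
        (S.sentence_rank N j)) rfl rfl)
    (S.threshold N) (fun π _ hc => by
      rw [← hval]
      exact (@hS (U n) _ (cnfStr π)).1 ((satisfiable_iff π).2 hc))
  have hc : Connected (finRotate n) := by
    intro a b
    have hcyc : (finRotate n).IsCycle := isCycle_finRotate_of_le hn2
    have hsup : (finRotate n).support = univ := support_finRotate_of_le hn2
    apply hcyc.sameCycle
    · have : a ∈ (finRotate n).support := by rw [hsup]; simp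
      simpa using this
    · have : b ∈ (finRotate n).support := by rw [hsup]; simp
      simpa using this
  have h1 := key _ hc
  rw [← hval] at h1
  exact (satisfiable_iff _).1 ((@hS (U n) _ (cnfStr (finRotate n))).2 h1) hc

/-! ## SAT is in monadic NP -/

/-- `c` is a clause (`c` is the bound variable `0`) -/
def clauseF : (cnf.sum (setLang (Fin 1))).BoundedFormula Empty 1 :=
  FirstOrder.Language.BoundedFormula.rel (l := 1)
    (Sum.inl (show cnf.Relations 1 from CnfSym.clause))
    (fun _ => FirstOrder.Language.Term.var (Sum.inr 0))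

def posF : (cnf.sum (setLang (Fin 1))).BoundedFormula Empty 2 :=
  FirstOrder.Language.BoundedFormula.rel (l := 2)
    (Sum.inl (show cnf.Relations 2 from CnfSym.pos))
    (fun i => FirstOrder.Language.Term.var (Sum.inr i))

def negF : (cnf.sum (setLang (Fin 1))).BoundedFormula Empty 2 :=
  FirstOrder.Language.BoundedFormula.rel (l := 2)
    (Sum.inl (show cnf.Relations 2 from CnfSym.neg))
    (fun i => FirstOrder.Language.Term.var (Sum.inr i))

/-- `x ∈ X` (`x` is the bound variable `1`) -/
def memF : (cnf.sum (setLang (Fin 1))).BoundedFormula Empty 2 :=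
  FirstOrder.Language.BoundedFormula.rel (l := 1)
    (Sum.inr (show (setLang (Fin 1)).Relations 1 from (0 : Fin 1)))
    (fun _ => FirstOrder.Language.Term.var (Sum.inr 1))

def satF : (cnf.sum (setLang (Fin 1))).Sentence :=
  (clauseF.imp ((posF ⊓ memF) ⊔ (negF ⊓ memF.not)).ex).all

theorem holds_satF {V : Type} [cnf.Structure V] (X : Fin 1 → Set V) :
    Holds X satF Empty.elim ↔
      ∀ c : V, IsClause c → ∃ x : V, (Pos c x ∧ x ∈ X 0) ∨ (Neg c x ∧ x ∉ X 0) := by
  let inst : (setLang (Fin 1)).Structure V := setStr X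
  unfold Holds satF FirstOrder.Language.Formula.Realize
  rw [FirstOrder.Language.BoundedFormula.realize_all]
  refine forall_congr' fun c => ?_
  rw [FirstOrder.Language.BoundedFormula.realize_imp]
  have h0 : (Fin.snoc default c : Fin 1 → V) = ![c] := by
    funext i
    fin_cases i; rfl
  refine imp_congr ?_ ?_
  · unfold IsClause
    rw [← h0]
    exact Iff.rfl
  rw [FirstOrder.Language.BoundedFormula.realize_ex]
  refine exists_congr fun x => ?_
  rw [FirstOrder.Language.BoundedFormula.realize_sup,
    FirstOrder.Language.BoundedFormula.realize_inf,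
    FirstOrder.Language.BoundedFormula.realize_inf,
    FirstOrder.Language.BoundedFormula.realize_not]
  have h1 : (Fin.snoc (Fin.snoc default c : Fin 1 → V) x : Fin 2 → V) = ![c, x] := by
    funext i
    fin_cases i <;> rfl
  rw [h1]
  unfold Pos Neg
  exact Iff.rfl

theorem sat_monadicNP : MonadicNP Satisfiable := by
  refine ⟨1, satF, ?_⟩
  intro V _ _
  unfold numSets
  rw [Nat.succ_le_iff, Nat.card_pos_iff]
  constructor
  · rintro ⟨X, hX⟩
    exact ⟨⟨⟨fun _ => X, (holds_satF _).2 hX⟩⟩, inferInstance⟩
  · rintro ⟨⟨⟨X, hX⟩⟩, _⟩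
    exact ⟨X 0, (holds_satF X).1 hX⟩

end Pool.Agent.LocalCount.Cnf
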