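import Pool.Agent.Lib.LocalCount.CnfFinal

/-! Every monadic exact counting scheme fails on a proper CNF formula (helper41). -/

namespace Pool.Agent.LocalCount.Cnf

open Finset Equiv FirstOrder Pool.Agent.MIP Pool.Agent.LocalCount

/-- Every element which occurs in another one is a variable, the other one is a clause. -/
def Proper (V : Type) [cnf.Structure V] : Prop :=
  ∀ c x : V, Pos c x ∨ Neg c x → IsClause c ∧ ¬ IsClause x

theorem proper_cnfStr {n : ℕ} (π : Perm (Fin n)) : @Proper (U n) (cnfStr π) := by
  intro c x h
  have h' : posR π c x ∨ negR c x := h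
  change clR c ∧ ¬ clR x
  rcases c with v | v | (_ | _) <;> rcases x with w | w | w <;>
    simp [posR, negR, clR] at h' ⊢

theorem no_scheme_proper (S : ExactScheme cnf) :
    ∃ (V : Type) (_ : Finite V) (_ : cnf.Structure V), Proper V ∧
      ¬ (Satisfiable V ↔ S.value V = S.threshold (Nat.card V)) := by
  classical
  by_contra hcon
  push Not at hcon
  have hS : ∀ (m : ℕ) (π : Perm (Fin m)), (@Satisfiable (U m) (cnfStr π) ↔
      @ExactScheme.value cnf S (U m) (cnfStr π) = S.threshold (Nat.card (U m))) :=
    fun m π => hcon (U m) inferInstance (cnfStr π) (proper_cnfStr π)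
  let κ : Type := (Fin S.k → Bool) × (Fin S.k → Bool)
  let r : ℕ := 2 * 5 ^ S.rank + 1
  let n : ℕ := r * (Fintype.card κ ^ (r - 1) + 1)
  let N : ℕ := Nat.card (U n)
  have hr1 : 1 ≤ r := by simp [r]
  have hk1 : 1 ≤ Fintype.card κ ^ (r - 1) := Nat.one_le_pow _ _ Fintype.card_pos
  have hn2 : 2 ≤ n := by
    have : 1 * 2 ≤ r * (Fintype.card κ ^ (r - 1) + 1) := Nat.mul_le_mul hr1 (by omega)
    simpa [n] using this
  let W : Perm (Fin n) → (Fin n → κ) → ℝ := fun π y => ∑ z : Bool → Fin S.k → Bool,
    ∑ j, S.coef N j * (if @Holds cnf (Fin S.k) Empty (U n) (cnfStr π) (toSets z y)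
      (S.sentence N j) Empty.elim then (1 : ℝ) else 0)
  have hval : ∀ π : Perm (Fin n), @ExactScheme.value cnf S (U n) (cnfStr π) = ∑ y, W π y := by
    intro π
    unfold ExactScheme.value
    have h1 : ∀ j, S.coef N j * (@numSets cnf S.k (U n) (cnfStr π) (S.sentence N j) : ℝ) =
        ∑ y : Fin n → κ, ∑ z : Bool → Fin S.k → Bool, S.coef N j *
          (if @Holds cnf (Fin S.k) Empty (U n) (cnfStr π) (toSets z y)
            (S.sentence N j) Empty.elim then (1 : ℝ) else 0) := by
      intro j
      rw [numSets_eq, Finset.mul_sum]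
      refine Finset.sum_congr rfl fun y _ => ?_
      rw [Finset.mul_sum]
    refine (Finset.sum_congr rfl fun j _ => h1 j).trans ?_
    rw [Finset.sum_comm]
    refine Finset.sum_congr rfl fun y _ => ?_
    rw [Finset.sum_comm]
  have key := abstract (n := n) (r := r) (κ := κ) hr1 le_rfl W
    (fun π g y => by
      refine Finset.sum_congr rfl fun z _ => Finset.sum_congr rfl fun j _ => ?_
      congr 1
      exact if_congr (holds_conj π g z y _) rfl rfl)
    (fun π π' y hl hl' hw => by
      refine Finset.sum_congr rfl fun z _ => Finset.sum_congr rfl fun j _ => ?_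
      congr 1
      exact if_congr (holds_local (q := S.rank) le_rfl π π' z y hl hl' hw _
        (S.sentence_rank N j)) rfl rfl)
    (S.threshold N) (fun π _ hc => by
      rw [← hval]
      exact (hS n π).1 ((satisfiable_iff π).2 hc))
  have hc : Connected (finRotate n) := by
    intro a b
    have hcyc : (finRotate n).IsCycle := isCycle_finRotate_of_le hn2
    have hsup : (finRotate n).support = univ := support_finRotate_of_le hn2
    apply hcyc.sameCycle
    · have : a ∈ (finRotate n).support := by rw [hsup]; simp
      simpa using this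
    · have : b ∈ (finRotate n).support := by rw [hsup]; simp
      simpa using this
  have h1 := key _ hc
  rw [← hval] at h1
  exact (satisfiable_iff _).1 ((hS n (finRotate n)).2 h1) hc


end Pool.Agent.LocalCount.Cnf
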