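import Pool.Agent.Lib.LocalCount.Abstract

/-! Exact counting when the predicate may also read a part of the permutation directly. -/

namespace Pool.Agent.LocalCount

open Finset Equiv

variable {n r : ℕ}

/-! ### Backward windows -/

theorem inv_fix {τ : Perm (Fin n)} {J : Finset (Fin n)} (hτ : ∀ v, v ∉ J → τ v = v) :
    ∀ v, v ∉ J → τ⁻¹ v = v := by
  intro v hv
  rw [Perm.inv_eq_iff_eq]
  exact (hτ v hv).symm

theorem pow_back {c τ : Perm (Fin n)} {J : Finset (Fin n)} {s : ℕ}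
    (hJ : ∀ p ∈ J, ∀ i, 1 ≤ i → i < s → (c ^ i) p ∉ J)
    (hτ : ∀ v, v ∉ J → τ v = v) {a : Fin n} (ha : a ∈ J) :
    ∀ i < s, ((c * τ)⁻¹ ^ i) a = (c⁻¹ ^ i) a := by
  intro i
  induction i with
  | zero => intro _; simp
  | succ i ih =>
    intro hi
    have hnot : (c⁻¹ ^ (i + 1)) a ∉ J := by
      intro h
      have h1 := hJ _ h (i + 1) (by omega) hi
      apply h1
      have : (c ^ (i + 1)) ((c⁻¹ ^ (i + 1)) a) = a := by
        rw [← Perm.mul_apply, inv_pow, mul_inv_cancel, Perm.one_apply]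
      rw [this]
      exact ha
    rw [pow_succ', Perm.mul_apply, ih (by omega), mul_inv_rev, Perm.mul_apply]
    have h2 : c⁻¹ ((c⁻¹ ^ i) a) = (c⁻¹ ^ (i + 1)) a := by
      rw [pow_succ', Perm.mul_apply]
    rw [h2, inv_fix hτ _ hnot]

theorem back_eq {c τ τ' : Perm (Fin n)} {J : Finset (Fin n)} {κ : Type} {y : Fin n → κ} {s : ℕ}
    (hJ : ∀ p ∈ J, ∀ i, 1 ≤ i → i < s → (c ^ i) p ∉ J)
    (hτ : ∀ v, v ∉ J → τ v = v) (hτ' : ∀ v, v ∉ J → τ' v = v)
    (hs : ∀ p ∈ J, ∀ i < s, y ((c⁻¹ ^ i) (τ⁻¹ p)) = y ((c⁻¹ ^ i) (τ'⁻¹ p))) :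
    ∀ i ≤ s, ∀ v, y (((c * τ)⁻¹ ^ i) v) = y (((c * τ')⁻¹ ^ i) v) := by
  have hinvJ : ∀ σ : Perm (Fin n), (∀ v, v ∉ J → σ v = v) → ∀ p ∈ J, σ⁻¹ p ∈ J := by
    intro σ hσ p hp
    exact mem_of_fix (inv_fix hσ) p hp
  intro i
  induction i with
  | zero => intro _ v; simp
  | succ i ih =>
    intro hi v
    rw [pow_succ, pow_succ, Perm.mul_apply, Perm.mul_apply]
    by_cases hv : c⁻¹ v ∈ J
    · have h1 : (c * τ)⁻¹ v = τ⁻¹ (c⁻¹ v) := by rw [mul_inv_rev, Perm.mul_apply]
      have h2 : (c * τ')⁻¹ v = τ'⁻¹ (c⁻¹ v) := by rw [mul_inv_rev, Perm.mul_apply]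
      rw [h1, h2, pow_back hJ hτ (hinvJ τ hτ _ hv) i (by omega),
        pow_back hJ hτ' (hinvJ τ' hτ' _ hv) i (by omega)]
      exact hs _ hv i (by omega)
    · have h1 : (c * τ)⁻¹ v = c⁻¹ v := by
        rw [mul_inv_rev, Perm.mul_apply, inv_fix hτ _ hv]
      have h2 : (c * τ')⁻¹ v = c⁻¹ v := by
        rw [mul_inv_rev, Perm.mul_apply, inv_fix hτ' _ hv]
      rw [h1, h2]
      exact ih (by omega) _

theorem signed_sumQ {κ : Type} [Fintype κ] {c : Perm (Fin n)} {J : Finset (Fin n)} {s : ℕ}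
    (hJ : ∀ p ∈ J, ∀ i, 1 ≤ i → i < max r s → (c ^ i) p ∉ J) {q : ℕ}
    (hcard : Fintype.card κ ^ (r - 1 + s) + q < J.card) (y : Fin n → κ) (W : Perm (Fin n) → ℝ)
    (hd : Perm (Fin n) → Finset (Fin n))
    (hq : ∀ τ : Perm (Fin n), (∀ v, v ∉ J → τ v = v) → (hd τ).card ≤ q)
    (hW : ∀ τ τ' : Perm (Fin n), (∀ v, v ∉ J → τ v = v) → (∀ v, v ∉ J → τ' v = v) →
      (∀ i < r, ∀ v, y (((c * τ) ^ i) v) = y (((c * τ') ^ i) v)) →
      (∀ i ≤ s, ∀ v, y (((c * τ)⁻¹ ^ i) v) = y (((c * τ')⁻¹ ^ i) v)) →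
      (∀ h ∈ hd τ, (c * τ')⁻¹ h = (c * τ)⁻¹ h) → W τ' = W τ ∧ hd τ' = hd τ) :
    ∑ τ ∈ univ.filter (fun τ : Perm (Fin n) => ∀ v, v ∉ J → τ v = v),
      ((Perm.sign τ : ℤ) : ℝ) * W τ = 0 := by
  classical
  have hJr : ∀ p ∈ J, ∀ i, 1 ≤ i → i < r → (c ^ i) p ∉ J := fun p hp i h1 h2 =>
    hJ p hp i h1 (lt_of_lt_of_le h2 (le_max_left _ _))
  have hJs : ∀ p ∈ J, ∀ i, 1 ≤ i → i < s → (c ^ i) p ∉ J := fun p hp i h1 h2 =>
    hJ p hp i h1 (lt_of_lt_of_le h2 (le_max_right _ _))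
  obtain ⟨j0, -⟩ : J.Nonempty := Finset.card_pos.1 (by omega)
  have hpair : ∀ (S : Finset (Fin n)) (b : Fin n → Fin s → κ), ∃ p q' : Fin n, S.card ≤ q →
      (p ∈ J ∧ q' ∈ J ∧ p ≠ q' ∧ c p ∉ S ∧ c q' ∉ S ∧
        (∀ i, 1 ≤ i → i < r → y ((c ^ i) p) = y ((c ^ i) q')) ∧ b p = b q') := by
    intro S b
    by_cases hS : S.card ≤ q
    · set A := J.filter fun p => c p ∉ S with hA
      have hAc : Fintype.card κ ^ (r - 1 + s) < A.card := by
        have h1 : (J.filter fun p => ¬ c p ∉ S).card ≤ S.card := by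
          apply Finset.card_le_card_of_injOn (fun p => c p)
          · intro p hp
            have h2 := (Finset.mem_filter.1 (Finset.mem_coe.1 hp)).2
            exact Finset.mem_coe.2 (not_not.1 h2)
          · intro a _ b _ hab
            exact c.injective hab
        have h2 := Finset.card_filter_add_card_filter_not (s := J) (fun p => c p ∉ S)
        rw [← hA] at h2
        omega
      obtain ⟨p, hp, q', hq', hpq, hs⟩ : ∃ p ∈ A, ∃ q' ∈ A, p ≠ q' ∧
          ((fun i : Fin (r - 1) => y ((c ^ ((i : ℕ) + 1)) p), b p) :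
            (Fin (r - 1) → κ) × (Fin s → κ)) =
            (fun i : Fin (r - 1) => y ((c ^ ((i : ℕ) + 1)) q'), b q') := by
        apply Finset.exists_ne_map_eq_of_card_lt_of_maps_to
          (t := (univ : Finset ((Fin (r-1) → κ) × (Fin s → κ))))
        · rw [Finset.card_univ, Fintype.card_prod, Fintype.card_fun, Fintype.card_fun,
            Fintype.card_fin, Fintype.card_fin, ← pow_add]
          exact hAc
        · intro a _; simp
      rw [hA, Finset.mem_filter] at hp hq'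
      refine ⟨p, q', fun _ => ⟨hp.1, hq'.1, hpq, hp.2, hq'.2, fun i h1 h2 => ?_,
        congrArg Prod.snd hs⟩⟩
      have := congrFun (congrArg Prod.fst hs) ⟨i - 1, by omega⟩
      simpa [Nat.sub_add_cancel h1] using this
    · exact ⟨j0, j0, fun h => absurd h hS⟩
  choose P P' hP using hpair
  let bb : Perm (Fin n) → Fin n → Fin s → κ := fun τ p i => y ((c⁻¹ ^ (i : ℕ)) (τ⁻¹ p))
  have hmem : ∀ τ : Perm (Fin n), (∀ v, v ∉ J → τ v = v) →
      (∀ v, v ∉ J → (swap (P (hd τ) (bb τ)) (P' (hd τ) (bb τ)) * τ) v = v) := by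
    intro τ hτ v hv
    obtain ⟨h1, h2, -⟩ := hP (hd τ) (bb τ) (hq τ hτ)
    rw [Perm.mul_apply, hτ v hv]
    apply swap_apply_of_ne_of_ne
    · intro h; rw [h] at hv; exact hv h1
    · intro h; rw [h] at hv; exact hv h2
  have hbb : ∀ τ : Perm (Fin n), (∀ v, v ∉ J → τ v = v) →
      bb (swap (P (hd τ) (bb τ)) (P' (hd τ) (bb τ)) * τ) = bb τ := by
    intro τ hτ
    obtain ⟨-, -, -, -, -, -, h7⟩ := hP (hd τ) (bb τ) (hq τ hτ)
    funext p
    have hp : bb (swap (P (hd τ) (bb τ)) (P' (hd τ) (bb τ)) * τ) p =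
        bb τ (swap (P (hd τ) (bb τ)) (P' (hd τ) (bb τ)) p) := by
      funext i
      simp only [bb, mul_inv_rev, Perm.mul_apply, swap_inv]
    rw [hp]
    by_cases h1 : p = P (hd τ) (bb τ)
    · rw [h1, swap_apply_left]; exact h7.symm
    · by_cases h2 : p = P' (hd τ) (bb τ)
      · rw [h2, swap_apply_right]; exact h7
      · rw [swap_apply_of_ne_of_ne h1 h2]
  have hinv : ∀ τ : Perm (Fin n), (∀ v, v ∉ J → τ v = v) →
      W (swap (P (hd τ) (bb τ)) (P' (hd τ) (bb τ)) * τ) = W τ ∧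
        hd (swap (P (hd τ) (bb τ)) (P' (hd τ) (bb τ)) * τ) = hd τ := by
    intro τ hτ
    obtain ⟨h1, h2, h3, h4, h5, h6, -⟩ := hP (hd τ) (bb τ) (hq τ hτ)
    have hsw : ∀ x i, 1 ≤ i → i < r →
        y ((c ^ i) x) = y ((c ^ i) (swap (P (hd τ) (bb τ)) (P' (hd τ) (bb τ)) x)) := by
      intro x i hi1 hi2
      by_cases hxp : x = P (hd τ) (bb τ)
      · rw [hxp, swap_apply_left]; exact h6 i hi1 hi2
      · by_cases hxq : x = P' (hd τ) (bb τ)
        · rw [hxq, swap_apply_right]; exact (h6 i hi1 hi2).symm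
        · rw [swap_apply_of_ne_of_ne hxp hxq]
    apply hW τ _ hτ (hmem τ hτ)
    · exact view_eq hJr hτ (mem_of_fix hτ) (hmem τ hτ) (mem_of_fix (hmem τ hτ))
        (fun p' _ j hj1 hj2 => by rw [Perm.mul_apply]; exact hsw _ j hj1 hj2)
    · apply back_eq hJs hτ (hmem τ hτ)
      intro p _ i hi
      exact (congrFun (congrFun (hbb τ hτ) p) ⟨i, hi⟩).symm
    · intro h hh
      simp only [mul_inv_rev, Perm.mul_apply, swap_inv]
      congr 1
      apply swap_apply_of_ne_of_ne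
      · intro h7
        apply h4
        rw [← h7]
        simpa using hh
      · intro h7
        apply h5
        rw [← h7]
        simpa using hh
  apply Finset.sum_involution (fun τ _ => swap (P (hd τ) (bb τ)) (P' (hd τ) (bb τ)) * τ)
  · intro τ hτ
    simp only [mem_filter, mem_univ, true_and] at hτ
    obtain ⟨h1, h2, h3, -⟩ := hP (hd τ) (bb τ) (hq τ hτ)
    rw [(hinv τ hτ).1]
    simp [Perm.sign_mul, Perm.sign_swap h3]
  · intro τ hτ _ h
    simp only [mem_filter, mem_univ, true_and] at hτ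
    obtain ⟨h1, h2, h3, -⟩ := hP (hd τ) (bb τ) (hq τ hτ)
    have : swap (P (hd τ) (bb τ)) (P' (hd τ) (bb τ)) = 1 := by
      have := congrArg (· * τ⁻¹) h
      simpa using this
    exact h3 (swap_eq_one_iff.1 this)
  · intro τ hτ
    simp only [mem_filter, mem_univ, true_and] at hτ ⊢
    exact hmem τ hτ
  · intro τ hτ
    simp only [mem_filter, mem_univ, true_and] at hτ
    rw [(hinv τ hτ).2, hbb τ hτ]
    simp [← mul_assoc]

/-- The main argument: squares of the deviation from the threshold. -/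
theorem queried {κ : Type} [Fintype κ] [Nonempty κ] {s : ℕ} (hr : 1 ≤ r) {q : ℕ}
    (hn : max r s * (Fintype.card κ ^ (2 * (r - 1 + s)) + 2 * q + 1) ≤ n)
    (W : Perm (Fin n) → (Fin n → κ) → ℝ) (hd : Perm (Fin n) → (Fin n → κ) → Finset (Fin n))
    (hq : ∀ π y, (hd π y).card ≤ q)
    (hloc : ∀ (π π' : Perm (Fin n)) (y : Fin n → κ),
      (∀ i < r, ∀ v, y ((π ^ i) v) = y ((π' ^ i) v)) →
      (∀ i ≤ s, ∀ v, y ((π⁻¹ ^ i) v) = y ((π'⁻¹ ^ i) v)) →
      (∀ h ∈ hd π y, π'⁻¹ h = π⁻¹ h) → W π' y = W π y ∧ hd π' y = hd π y)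
    (t : ℝ) {c : Perm (Fin n)} (hc : Connected c)
    (H : ∀ π : Perm (Fin n), (∀ v, max r s ≤ Function.minimalPeriod π v) →
      (¬ Connected π → ∑ y, W π y = t)) :
    ∑ y, W c y = t := by
  classical
  have hk1 : 1 ≤ Fintype.card κ ^ (2 * (r - 1 + s)) := Nat.one_le_pow _ _ Fintype.card_pos
  have hk2 : Fintype.card (κ × κ) ^ (r - 1 + s) = Fintype.card κ ^ (2 * (r - 1 + s)) := by
    rw [Fintype.card_prod, pow_mul, pow_two]
  have hk3 : Fintype.card κ ^ (r - 1 + s) ≤ Fintype.card κ ^ (2 * (r - 1 + s)) :=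
    Nat.pow_le_pow_right Fintype.card_pos (by omega)
  have hm : 1 ≤ max r s := le_trans hr (le_max_left _ _)
  have hn2 : 2 ≤ n := by
    have : 1 * 2 ≤ max r s * (Fintype.card κ ^ (2 * (r - 1 + s)) + 2 * q + 1) :=
      Nat.mul_le_mul hm (by omega)
    omega
  obtain ⟨J, hJc, hJ⟩ := exists_J (r := max r s)
    (N := Fintype.card κ ^ (2 * (r - 1 + s)) + 2 * q + 1) hn2 hm hn hc
  have hJne : J.Nonempty := Finset.card_pos.1 (by omega)
  set T := univ.filter (fun τ : Perm (Fin n) => ∀ v, v ∉ J → τ v = v) with hT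
  have h1 : ∑ τ ∈ T, ((Perm.sign τ : ℤ) : ℝ) * ∑ y, W (c * τ) y = 0 := by
    simp only [Finset.mul_sum]
    rw [Finset.sum_comm]
    apply Finset.sum_eq_zero
    intro y _
    exact signed_sumQ (s := s) hJ (q := q) (by omega) y (fun τ => W (c * τ) y)
      (fun τ => hd (c * τ) y)
      (fun τ _ => hq _ _) fun τ τ' _ _ h h' h'' => hloc _ _ y h h' h''
  have h1' : ∑ τ ∈ T, ((Perm.sign τ : ℤ) : ℝ) *
      ((∑ y, W (c * τ) y) * ∑ y, W (c * τ) y) = 0 := by
    have : ∀ τ ∈ T, ((Perm.sign τ : ℤ) : ℝ) * ((∑ y, W (c * τ) y) * ∑ y, W (c * τ) y) =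
        ∑ y, ∑ y', ((Perm.sign τ : ℤ) : ℝ) * (W (c * τ) y * W (c * τ) y') := by
      intro τ _
      rw [Finset.sum_mul_sum, Finset.mul_sum]
      refine Finset.sum_congr rfl fun y _ => ?_
      rw [Finset.mul_sum]
    rw [Finset.sum_congr rfl this, Finset.sum_comm]
    apply Finset.sum_eq_zero
    intro y _
    rw [Finset.sum_comm]
    apply Finset.sum_eq_zero
    intro y' _
    refine signed_sumQ (κ := κ × κ) (s := s) hJ (q := 2 * q) (by rw [hk2]; omega)
      (fun v => (y v, y' v)) (fun τ => W (c * τ) y * W (c * τ) y')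
      (fun τ => hd (c * τ) y ∪ hd (c * τ) y')
      (fun τ _ => (Finset.card_union_le _ _).trans (by
        have := hq (c * τ) y
        have := hq (c * τ) y'
        omega)) fun τ τ' _ _ h hb h' => ?_
    have e1 := hloc (c * τ) (c * τ') y (fun i hi v => congrArg Prod.fst (h i hi v))
      (fun i hi v => congrArg Prod.fst (hb i hi v))
      fun z hz => h' z (Finset.mem_union_left _ hz)
    have e2 := hloc (c * τ) (c * τ') y' (fun i hi v => congrArg Prod.snd (h i hi v))
      (fun i hi v => congrArg Prod.snd (hb i hi v))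
      fun z hz => h' z (Finset.mem_union_right _ hz)
    rw [e1.1, e1.2, e2.1, e2.2]
    exact ⟨rfl, rfl⟩
  have h2 : ∑ τ ∈ T, ((Perm.sign τ : ℤ) : ℝ) = 0 := sum_sign (by omega)
  have h3 : ∑ τ ∈ T, ((Perm.sign τ : ℤ) : ℝ) * (∑ y, W (c * τ) y - t) ^ 2 = 0 := by
    have : ∀ τ ∈ T, ((Perm.sign τ : ℤ) : ℝ) * (∑ y, W (c * τ) y - t) ^ 2 =
        ((Perm.sign τ : ℤ) : ℝ) * ((∑ y, W (c * τ) y) * ∑ y, W (c * τ) y) -
        (2 * t) * (((Perm.sign τ : ℤ) : ℝ) * ∑ y, W (c * τ) y) +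
        t ^ 2 * ((Perm.sign τ : ℤ) : ℝ) := by
      intro τ _
      ring
    rw [Finset.sum_congr rfl this, Finset.sum_add_distrib, Finset.sum_sub_distrib,
      ← Finset.mul_sum, ← Finset.mul_sum, h1, h1', h2]
    ring
  have h4 : ∀ τ ∈ T, 0 ≤ ((Perm.sign τ : ℤ) : ℝ) * (∑ y, W (c * τ) y - t) ^ 2 := by
    intro τ hτ
    simp only [hT, mem_filter, mem_univ, true_and] at hτ
    by_cases hcon : Connected (c * τ)
    · have hc2 := isConj_of_connected hn2 hc hcon
      have hsig : Perm.sign (c * τ) = Perm.sign c := by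
        have := (Perm.sign : Perm (Fin n) →* ℤˣ).map_isConj hc2
        exact (isConj_iff_eq.1 this).symm
      rw [Perm.sign_mul] at hsig
      have hs1 : Perm.sign τ = 1 := by
        simpa using hsig
      rw [hs1]
      simpa using sq_nonneg _
    · rw [H _ (long_cycles hJne hJ hτ hc) hcon]
      simp
  have h5 := (Finset.sum_eq_zero_iff_of_nonneg h4).1 h3 1 (by simp [hT])
  simp only [Perm.sign_one, Units.val_one, Int.cast_one, one_mul, mul_one] at h5
  have h6 := pow_eq_zero_iff (two_ne_zero) |>.1 h5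
  linarith

/-! ## Decision trees -/

/-- Decision trees with outputs in `α` which ask for `π v` (`fwd = true`) or for `π⁻¹ v`
(`fwd = false`). -/
inductive Tree (n : ℕ) (α : Type) : Type
  | leaf (a : α) : Tree n α
  | ask (fwd : Bool) (v : Fin n) (next : Fin n → Tree n α) : Tree n α

namespace Tree

variable {α : Type}

/-- The output on `π`. -/
def eval (π : Perm (Fin n)) : Tree n α → α
  | leaf a => a
  | ask b v next => eval π (next (if b then π v else π⁻¹ v))

/-- At most `q` questions are asked. -/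
def Asks : ℕ → Tree n α → Prop
  | _, leaf _ => True
  | 0, ask _ _ _ => False
  | q + 1, ask _ _ next => ∀ v, Asks q (next v)

/-- Heads of the arcs which are seen. -/
def heads (π : Perm (Fin n)) : Tree n α → Finset (Fin n)
  | leaf _ => ∅
  | ask b v next => insert (if b then π v else v) (heads π (next (if b then π v else π⁻¹ v)))

theorem heads_card (π : Perm (Fin n)) : ∀ (q : ℕ) (T : Tree n α), T.Asks q →
    (T.heads π).card ≤ q := by
  intro q
  induction q with
  | zero =>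
    intro T hT
    cases T with
    | leaf a => simp [heads]
    | ask b v next => exact hT.elim
  | succ q ih =>
    intro T hT
    cases T with
    | leaf a => simp [heads]
    | ask b v next =>
      refine (Finset.card_insert_le _ _).trans ?_
      have := ih (next (if b then π v else π⁻¹ v)) (hT _)
      omega

theorem eval_eq (π π' : Perm (Fin n)) : ∀ (T : Tree n α), (∀ h ∈ T.heads π, π'⁻¹ h = π⁻¹ h) →
    T.eval π' = T.eval π ∧ T.heads π' = T.heads π := by
  intro T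
  induction T with
  | leaf a => intro _; exact ⟨rfl, rfl⟩
  | ask b v next ih =>
    intro h
    have h0 : (if b then π' v else π'⁻¹ v) = (if b then π v else π⁻¹ v) := by
      have h1 := h (if b then π v else v) (Finset.mem_insert_self _ _)
      cases b with
      | true =>
        simp only [if_true] at h1 ⊢
        have h2 := congrArg π' h1
        simpa using h2.symm
      | false =>
        simpa using h1
    have h2 := ih (if b then π v else π⁻¹ v) fun z hz => h z (Finset.mem_insert_of_mem hz)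
    constructor
    · simp only [eval]
      rw [h0]
      exact h2.1
    · simp only [heads]
      rw [h0, h2.2]
      cases b with
      | true =>
        simp only [if_true] at h0 ⊢
        rw [h0]
      | false => rfl

end Tree

end Pool.Agent.LocalCount
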