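import Pool.Agent.Lib.LocalCount.Abstract

/-! Weights on pairs of labellings with about `√n` labels which separate the long cycles. -/

namespace Pool.Agent.LocalCount

open Finset Equiv

/-- `S` is a decreasing subsequence of `σ`. -/
def Dec {n : ℕ} (σ : Perm (Fin n)) (S : Finset (Fin n)) : Prop :=
  ∀ a ∈ S, ∀ b ∈ S, a < b → σ b < σ a

theorem exists_col {n k : ℕ} (σ : Perm (Fin n)) (h : ∀ S, Dec σ S → S.card ≤ k) :
    ∃ z : Fin n → Fin k, ∀ u v, u < v → z u = z v → σ u < σ v := by
  classical
  let F : Fin n → Finset (Finset (Fin n)) := fun v =>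
    univ.filter fun S => Dec σ S ∧ v ∈ S ∧ ∀ a ∈ S, a ≤ v
  let L : Fin n → ℕ := fun v => (F v).sup Finset.card
  have h1 : ∀ v, {v} ∈ F v := by
    intro v
    simp only [F, mem_filter, mem_univ, true_and]
    refine ⟨?_, Finset.mem_singleton_self v, ?_⟩
    · intro a ha b hb hab
      rw [Finset.mem_singleton] at ha hb
      subst ha; subst hb
      exact absurd hab (lt_irrefl _)
    · intro a ha
      rw [Finset.mem_singleton] at ha
      exact ha.le
  have h2 : ∀ v, 1 ≤ L v := by
    intro v
    have := Finset.le_sup (f := Finset.card) (h1 v)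
    simpa [L] using this
  have h3 : ∀ v, L v ≤ k := by
    intro v
    apply Finset.sup_le
    intro S hS
    simp only [F, mem_filter, mem_univ, true_and] at hS
    exact h S hS.1
  refine ⟨fun v => ⟨L v - 1, by have := h2 v; have := h3 v; omega⟩, ?_⟩
  intro u v huv hz
  have hL : L u = L v := by
    have := congrArg Fin.val hz
    simp only at this
    have := h2 u
    have := h2 v
    omega
  by_contra hcon
  have hlt : σ v < σ u := by
    rcases lt_trichotomy (σ u) (σ v) with h4 | h4 | h4
    · exact absurd h4 hcon
    · exact absurd (σ.injective h4) huv.ne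
    · exact h4
  obtain ⟨S, hS, hSc⟩ := Finset.exists_mem_eq_sup (F u) ⟨_, h1 u⟩ Finset.card
  have hSc' : S.card = L u := hSc.symm
  simp only [F, mem_filter, mem_univ, true_and] at hS
  obtain ⟨hd, huS, hmax⟩ := hS
  have hvS : v ∉ S := fun hv => absurd (hmax v hv) (not_le.2 huv)
  have hnew : insert v S ∈ F v := by
    simp only [F, mem_filter, mem_univ, true_and]
    refine ⟨?_, Finset.mem_insert_self _ _, ?_⟩
    · intro a ha b hb hab
      rw [Finset.mem_insert] at ha hb
      rcases ha with rfl | ha
      · rcases hb with rfl | hb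
        · exact absurd hab (lt_irrefl _)
        · exact absurd (hab.trans_le (hmax b hb)) (not_lt.2 huv.le)
      · rcases hb with rfl | hb
        · rcases (hmax a ha).lt_or_eq with h5 | h5
          · exact hlt.trans (hd a ha u huS h5)
          · rw [h5]; exact hlt
        · exact hd a ha b hb hab
    · intro a ha
      rw [Finset.mem_insert] at ha
      rcases ha with rfl | ha
      · exact le_rfl
      · exact (hmax a ha).trans huv.le
  have h6 := Finset.le_sup (f := Finset.card) hnew
  rw [Finset.card_insert_of_notMem hvS, hSc'] at h6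
  have h7 : L u + 1 ≤ L v := h6
  omega

/-- The permutation `σ` is lexicographically minimal among the `π` with the same colours. -/
theorem lex_min {n k : ℕ} {σ π : Perm (Fin n)} {y z : Fin n → Fin k}
    (hz : ∀ u v, u < v → z u = z v → σ u < σ v) (hσ : y ∘ σ = z) (hπ : y ∘ π = z)
    (hne : π ≠ σ) : ∃ v, (∀ u < v, σ u = π u) ∧ σ v < π v := by
  classical
  have hex : (univ.filter fun v => π v ≠ σ v).Nonempty := by
    by_contra h
    rw [Finset.not_nonempty_iff_eq_empty] at h
    apply hne
    ext v
    by_contra hv
    have : v ∈ univ.filter fun v => π v ≠ σ v := by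
      simp only [mem_filter, mem_univ, true_and]
      exact fun h' => hv (by rw [h'])
    rw [h] at this
    exact absurd this (Finset.notMem_empty v)
  let v := (univ.filter fun v => π v ≠ σ v).min' hex
  have hv : π v ≠ σ v := by
    have := Finset.min'_mem _ hex
    simpa using this
  have hmin : ∀ u < v, σ u = π u := by
    intro u hu
    by_contra h
    have hmem : u ∈ univ.filter fun v => π v ≠ σ v := by
      simp only [mem_filter, mem_univ, true_and]
      exact fun h' => h h'.symm
    exact absurd (Finset.min'_le _ u hmem) (not_le.2 hu)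
  refine ⟨v, hmin, ?_⟩
  obtain ⟨u, hu⟩ := σ.surjective (π v)
  have huv : u ≠ v := by
    rintro rfl
    exact hv hu.symm
  have hcol : z v = z u := by
    rw [← congrFun hπ v, ← congrFun hσ u]
    simp only [Function.comp]
    rw [hu]
  rcases lt_or_gt_of_ne huv with h | h
  · have := hmin u h
    rw [hu] at this
    exact absurd (π.injective this).symm huv
  · rw [← hu]
    exact hz v u h hcol

/-- The weighted sums. -/
noncomputable def Phi (n k : ℕ) :
    ((Fin n → Fin k) × (Fin n → Fin k) → ℝ) →ₗ[ℝ] (Perm (Fin n) → ℝ) where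
  toFun a π := ∑ y : Fin n → Fin k, a (y, y ∘ π)
  map_add' a b := by
    funext π
    simp [Finset.sum_add_distrib]
  map_smul' c a := by
    funext π
    simp [Finset.mul_sum]

theorem Phi_single {n k : ℕ} (y z : Fin n → Fin k) (π : Perm (Fin n)) :
    Phi n k (Pi.single (y, z) 1) π = if y ∘ π = z then 1 else 0 := by
  classical
  change ∑ y' : Fin n → Fin k, (Pi.single (y, z) (1 : ℝ) : _ → ℝ) (y', y' ∘ π) = _
  rw [Finset.sum_eq_single y]
  · by_cases h : y ∘ π = z
    · rw [if_pos h, h, Pi.single_eq_same]
    · rw [if_neg h, Pi.single_eq_of_ne]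
      intro h'
      exact h (congrArg Prod.snd h')
  · intro y' _ hy'
    rw [Pi.single_eq_of_ne]
    intro h'
    exact hy' (congrArg Prod.fst h')
  · intro h
    exact absurd (Finset.mem_univ _) h

theorem dec_count {n : ℕ} (S : Finset (Fin n)) [DecidablePred fun σ : Perm (Fin n) => Dec σ S] :
    (univ.filter fun σ : Perm (Fin n) => Dec σ S).card * S.card.factorial ≤ n.factorial := by
  classical
  have hP : Fintype.card (Perm {x // x ∈ S}) = S.card.factorial := by
    rw [Fintype.card_perm, Fintype.card_coe]
  have hN : Fintype.card (Perm (Fin n)) = n.factorial := by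
    rw [Fintype.card_perm, Fintype.card_fin]
  rw [← hP, ← hN, ← Finset.card_univ (α := Perm {x // x ∈ S}), ← Finset.card_product,
    ← Finset.card_univ (α := Perm (Fin n))]
  apply Finset.card_le_card_of_injOn
    (fun p : Perm (Fin n) × Perm {x // x ∈ S} => p.1 * Perm.ofSubtype p.2)
  · intro p _
    exact Finset.mem_coe.2 (Finset.mem_univ _)
  · rintro ⟨σ, τ⟩ h1 ⟨σ', τ'⟩ h2 h
    simp only [coe_product, coe_filter, mem_univ, true_and, coe_univ, Set.mem_prod,
      Set.mem_ofPred_eq, Set.mem_univ, and_true] at h1 h2 h
    -- ρ = σ'⁻¹ σ is the identity off `S` and increasing on `S`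
    have hρ : σ'⁻¹ * σ = Perm.ofSubtype (τ' * τ⁻¹) := by
      rw [map_mul, map_inv]
      have := congrArg (fun x => σ'⁻¹ * x * (Perm.ofSubtype τ)⁻¹) h
      simp only [mul_assoc, mul_inv_cancel, mul_one] at this
      simpa [← mul_assoc] using this
    have hS : ∀ x : {x // x ∈ S}, (σ'⁻¹ * σ) x = ((τ' * τ⁻¹) x : {x // x ∈ S}) := by
      intro x
      rw [hρ, Perm.ofSubtype_apply_coe]
    have hmono : StrictMono (τ' * τ⁻¹ : Perm {x // x ∈ S}) := by
      intro a b hab
      have ha := hS a
      have hb := hS b
      rw [Perm.mul_apply] at ha hb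
      have ha' : σ a = σ' ((τ' * τ⁻¹) a : {x // x ∈ S}) := by rw [← ha]; simp
      have hb' : σ b = σ' ((τ' * τ⁻¹) b : {x // x ∈ S}) := by rw [← hb]; simp
      have hlt := h1 a a.2 b b.2 hab
      rw [ha', hb'] at hlt
      rcases lt_trichotomy ((τ' * τ⁻¹) a) ((τ' * τ⁻¹) b) with h3 | h3 | h3
      · exact h3
      · rw [h3] at hlt; exact absurd hlt (lt_irrefl _)
      · have := h2 _ ((τ' * τ⁻¹) b).2 _ ((τ' * τ⁻¹) a).2 h3
        exact absurd hlt (not_lt.2 this.le)
    have hid : τ' * τ⁻¹ = 1 := by
      let e : {x // x ∈ S} ≃o {x // x ∈ S} :=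
        StrictMono.orderIsoOfSurjective _ hmono (τ' * τ⁻¹ : Perm _).surjective
      have he : e = OrderIso.refl _ := Subsingleton.elim _ _
      apply Equiv.ext
      intro x
      have := congrArg (fun f : {x // x ∈ S} ≃o {x // x ∈ S} => f x) he
      simpa [e] using this
    have hτ : τ = τ' := by
      have := congrArg (· * τ) hid
      simpa using this.symm
    subst hτ
    have hσ : σ = σ' := by
      simpa using h
    rw [hσ]

theorem bad_count {n m : ℕ} [DecidablePred fun σ : Perm (Fin n) => ∃ S, S.card = m ∧ Dec σ S] :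
    (univ.filter fun σ : Perm (Fin n) => ∃ S, S.card = m ∧ Dec σ S).card * m.factorial ≤
      n.choose m * n.factorial := by
  classical
  have hsub : (univ.filter fun σ : Perm (Fin n) => ∃ S, S.card = m ∧ Dec σ S) ⊆
      (Finset.powersetCard m (univ : Finset (Fin n))).biUnion
        fun S => univ.filter fun σ : Perm (Fin n) => Dec σ S := by
    intro σ hσ
    simp only [mem_filter, mem_univ, true_and] at hσ
    obtain ⟨S, h1, h2⟩ := hσ
    rw [Finset.mem_biUnion]
    exact ⟨S, Finset.mem_powersetCard.2 ⟨Finset.subset_univ _, h1⟩, by simpa using h2⟩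
  calc _ ≤ (∑ S ∈ Finset.powersetCard m (univ : Finset (Fin n)),
        (univ.filter fun σ : Perm (Fin n) => Dec σ S).card) * m.factorial :=
        Nat.mul_le_mul_right _ ((Finset.card_le_card hsub).trans Finset.card_biUnion_le)
    _ = ∑ S ∈ Finset.powersetCard m (univ : Finset (Fin n)),
        (univ.filter fun σ : Perm (Fin n) => Dec σ S).card * m.factorial := by
        rw [Finset.sum_mul]
    _ ≤ ∑ S ∈ Finset.powersetCard m (univ : Finset (Fin n)), n.factorial := by
        apply Finset.sum_le_sum
        intro S hS
        have := (Finset.mem_powersetCard.1 hS).2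
        rw [← this]
        exact dec_count S
    _ = n.choose m * n.factorial := by
        rw [Finset.sum_const, Finset.card_powersetCard, Finset.card_univ, Fintype.card_fin,
          smul_eq_mul]

theorem connected_count {n : ℕ} (hn : 2 ≤ n) [DecidablePred (Connected (n := n))] :
    (n - 1).factorial ≤ (univ.filter fun π : Perm (Fin n) => Connected π).card := by
  classical
  have h := Perm.card_of_cycleType_singleton (α := Fin n) hn (by rw [Fintype.card_fin])
  rw [Fintype.card_fin, Nat.choose_self, mul_one] at h
  rw [← h]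
  apply Finset.card_le_card
  intro g hg
  simp only [mem_filter, mem_univ, true_and] at hg ⊢
  have hcyc : g.IsCycle := by
    rw [← Perm.card_cycleType_eq_one, hg]
    simp
  have hs : g.support = univ := by
    apply Finset.eq_univ_of_card
    rw [← Perm.sum_cycleType, hg, Fintype.card_fin]
    simp
  intro a b
  apply hcyc.sameCycle
  · have : a ∈ g.support := by rw [hs]; simp
    simpa using this
  · have : b ∈ g.support := by rw [hs]; simp
    simpa using this

end Pool.Agent.LocalCount
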