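import Pool.Agent.Lib.LocalCount.Sharp

/-! With about `√n` labels there are weights which vanish exactly on the disconnected
permutations. -/

namespace Pool.Agent.LocalCount

open Finset Equiv

theorem good_lt {n k : ℕ} (hn : 2 ≤ n) (h : n * n.choose (k + 1) < (k + 1).factorial)
    [DecidablePred (Connected (n := n))]
    [DecidablePred fun σ : Perm (Fin n) => ∃ S, S.card = k + 1 ∧ Dec σ S] :
    (univ.filter fun π : Perm (Fin n) => ¬ Connected π).card <
      (univ.filter fun σ : Perm (Fin n) => ¬ ∃ S, S.card = k + 1 ∧ Dec σ S).card := by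
  have h1 := bad_count (n := n) (m := k + 1)
  have h2 := connected_count hn
  have h3 := Finset.card_filter_add_card_filter_not (s := (univ : Finset (Perm (Fin n))))
    (fun π => Connected π)
  have h4 := Finset.card_filter_add_card_filter_not (s := (univ : Finset (Perm (Fin n))))
    (fun σ => ∃ S, S.card = k + 1 ∧ Dec σ S)
  have h5 : n.factorial = n * (n - 1).factorial := by
    rw [Nat.mul_factorial_pred (by omega)]
  have h6 : (univ.filter fun σ : Perm (Fin n) => ∃ S, S.card = k + 1 ∧ Dec σ S).card <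
      (n - 1).factorial := by
    have hpos : 0 < (n - 1).factorial := Nat.factorial_pos _
    have h7 : (univ.filter fun σ : Perm (Fin n) => ∃ S, S.card = k + 1 ∧ Dec σ S).card *
        (k + 1).factorial < (n - 1).factorial * (k + 1).factorial := by
      calc _ ≤ n.choose (k + 1) * n.factorial := h1
        _ = (n * n.choose (k + 1)) * (n - 1).factorial := by rw [h5]; ring
        _ < (k + 1).factorial * (n - 1).factorial := Nat.mul_lt_mul_of_pos_right h hpos
        _ = _ := Nat.mul_comm _ _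
    exact lt_of_mul_lt_mul_right h7 (Nat.zero_le _)
  omega

theorem exists_one {n k : ℕ} (hn : 2 ≤ n) (h : n * n.choose (k + 1) < (k + 1).factorial) :
    ∃ a : (Fin n → Fin k) × (Fin n → Fin k) → ℝ,
      (∀ π : Perm (Fin n), ¬ Connected π → Phi n k a π = 0) ∧
      ∃ π : Perm (Fin n), Connected π ∧ Phi n k a π ≠ 0 := by
  classical
  let G : Type := {σ : Perm (Fin n) // ¬ ∃ S, S.card = k + 1 ∧ Dec σ S}
  let D : Type := {π : Perm (Fin n) // ¬ Connected π}
  have hcard : Fintype.card D < Fintype.card G := by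
    rw [Fintype.card_subtype, Fintype.card_subtype]
    exact good_lt hn h
  have hcol : ∀ σ : G, ∃ z : Fin n → Fin k, ∀ u v, u < v → z u = z v → σ.1 u < σ.1 v := by
    intro σ
    apply exists_col
    intro S hS
    by_contra hc
    push Not at hc
    obtain ⟨S', hS', hc'⟩ := Finset.exists_subset_card_eq (Nat.succ_le_of_lt hc)
    exact σ.2 ⟨S', hc', fun a ha b hb hab => hS a (hS' ha) b (hS' hb) hab⟩
  choose z hz using hcol
  let y : G → Fin n → Fin k := fun σ => z σ ∘ σ.1.symm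
  have hy : ∀ σ : G, y σ ∘ σ.1 = z σ := by
    intro σ
    funext v
    simp [y]
  let coef : (G → ℝ) →ₗ[ℝ] ((Fin n → Fin k) × (Fin n → Fin k) → ℝ) :=
    { toFun := fun c => ∑ σ, c σ • Pi.single (y σ, z σ) (1 : ℝ)
      map_add' := fun a b => by simp [add_smul, Finset.sum_add_distrib]
      map_smul' := fun r a => by simp [mul_smul, Finset.smul_sum] }
  let R : (Perm (Fin n) → ℝ) →ₗ[ℝ] (D → ℝ) :=
    { toFun := fun f d => f d.1
      map_add' := fun a b => rfl
      map_smul' := fun r a => rfl }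
  have hker : LinearMap.ker (R ∘ₗ (Phi n k) ∘ₗ coef) ≠ ⊥ := by
    apply LinearMap.ker_ne_bot_of_finrank_lt
    rw [Module.finrank_fintype_fun_eq_card, Module.finrank_fintype_fun_eq_card]
    exact hcard
  obtain ⟨c, hc, hc0⟩ := Submodule.exists_mem_ne_zero_of_ne_bot hker
  rw [LinearMap.mem_ker] at hc
  have hval : ∀ π : Perm (Fin n), Phi n k (coef c) π =
      ∑ σ, c σ * (if y σ ∘ π = z σ then (1 : ℝ) else 0) := by
    intro π
    change Phi n k (∑ σ, c σ • Pi.single (y σ, z σ) (1 : ℝ)) π = _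
    rw [map_sum, Finset.sum_apply]
    refine Finset.sum_congr rfl fun σ _ => ?_
    rw [map_smul, Pi.smul_apply, Phi_single, smul_eq_mul]
  -- the lexicographically smallest σ with c σ ≠ 0
  have hne : (univ.filter fun σ : G => c σ ≠ 0).Nonempty := by
    by_contra hh
    rw [Finset.not_nonempty_iff_eq_empty] at hh
    apply hc0
    funext σ
    by_contra hσ
    have : σ ∈ univ.filter fun σ : G => c σ ≠ 0 := by simpa using hσ
    rw [hh] at this
    exact absurd this (Finset.notMem_empty σ)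
  obtain ⟨σ0, hσ0, hmin⟩ := Finset.exists_min_image _
    (fun σ : G => toLex (fun v => σ.1 v : Fin n → Fin n)) hne
  have hσ0' : c σ0 ≠ 0 := by simpa using hσ0
  have hat : Phi n k (coef c) σ0.1 = c σ0 := by
    rw [hval, Finset.sum_eq_single σ0]
    · rw [if_pos (hy σ0), mul_one]
    · intro σ _ hσ
      by_cases hcσ : c σ = 0
      · rw [hcσ, zero_mul]
      · rw [if_neg, mul_zero]
        intro hcos
        have hne' : σ0.1 ≠ σ.1 := fun h' => hσ (Subtype.ext h'.symm)
        obtain ⟨v, hv1, hv2⟩ := lex_min (hz σ) (hy σ) hcos hne'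
        have hlt : toLex (fun v => σ.1 v : Fin n → Fin n) <
            toLex (fun v => σ0.1 v : Fin n → Fin n) := ⟨v, hv1, hv2⟩
        have hle := hmin σ (by simpa using hcσ)
        exact absurd hlt (not_lt.2 hle)
    · intro h'
      exact absurd (Finset.mem_univ _) h'
  refine ⟨coef c, ?_, σ0.1, ?_, ?_⟩
  · intro π hπ
    exact congrFun hc ⟨π, hπ⟩
  · by_contra hcon
    have : Phi n k (coef c) σ0.1 = 0 := congrFun hc ⟨σ0.1, hcon⟩
    rw [hat] at this
    exact hσ0' this
  · rw [hat]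
    exact hσ0'

theorem connected_conj {n : ℕ} {π g : Perm (Fin n)} (h : Connected (g⁻¹ * π * g)) :
    Connected π := by
  intro a b
  have := h (g⁻¹ a) (g⁻¹ b)
  obtain ⟨i, hi⟩ := this
  refine ⟨i, ?_⟩
  have h1 : g⁻¹ * π * g = g⁻¹ * π * (g⁻¹)⁻¹ := by simp
  rw [h1, conj_zpow] at hi
  simpa [Perm.mul_apply] using hi

theorem exists_exact {n k : ℕ} (hn : 2 ≤ n) (h : n * n.choose (k + 1) < (k + 1).factorial) :
    ∃ a : (Fin n → Fin k) × (Fin n → Fin k) → ℝ,
      ∀ π : Perm (Fin n), ¬ Connected π ↔ Phi n k a π = 0 := by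
  classical
  obtain ⟨a0, ha0, σ0, hσ0, hne0⟩ := exists_one hn h
  let p : Submodule ℝ ((Fin n → Fin k) × (Fin n → Fin k) → ℝ) :=
    { carrier := {a | ∀ π : Perm (Fin n), ¬ Connected π → Phi n k a π = 0}
      add_mem' := fun {a b} ha hb π hπ => by rw [map_add, Pi.add_apply, ha π hπ, hb π hπ, add_zero]
      zero_mem' := fun π _ => by rw [map_zero]; rfl
      smul_mem' := fun c a ha π hπ => by rw [map_smul, Pi.smul_apply, ha π hπ, smul_zero] }
  let f : {c : Perm (Fin n) // Connected c} →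
      Module.Dual ℝ ((Fin n → Fin k) × (Fin n → Fin k) → ℝ) :=
    fun c => (LinearMap.proj c.1) ∘ₗ (Phi n k)
  obtain ⟨a, hap, hane⟩ := Module.Dual.exists_forall_mem_ne_zero_of_forall_exists p f (by
    rintro ⟨c, hc⟩
    obtain ⟨g, hg⟩ := isConj_iff.1 (isConj_of_connected hn hσ0 hc)
    -- c = g σ0 g⁻¹
    have hPhi : ∀ π : Perm (Fin n), Phi n k (fun q => a0 (q.1 ∘ g, q.2 ∘ g)) π =
        Phi n k a0 (g⁻¹ * π * g) := by
      intro π
      change ∑ y : Fin n → Fin k, a0 (y ∘ g, (y ∘ π) ∘ g) =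
        ∑ y : Fin n → Fin k, a0 (y, y ∘ (g⁻¹ * π * g : Perm (Fin n)))
      refine Fintype.sum_equiv (Equiv.arrowCongr g⁻¹ (Equiv.refl _)) _ _ (fun y => ?_)
      congr 1
      refine Prod.ext ?_ ?_
      · rfl
      · funext v
        change y (π (g v)) = y (g (g⁻¹ (π (g v))))
        simp
    refine ⟨fun q => a0 (q.1 ∘ g, q.2 ∘ g), ?_, ?_⟩
    · intro π hπ
      rw [hPhi]
      exact ha0 _ fun h' => hπ (connected_conj h')
    · change Phi n k (fun q => a0 (q.1 ∘ g, q.2 ∘ g)) c ≠ 0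
      rw [hPhi, ← hg]
      have : g⁻¹ * (g * σ0 * g⁻¹) * g = σ0 := by group
      rw [this]
      exact hne0)
  refine ⟨a, fun π => ⟨fun hπ => hap π hπ, fun h0 hc => ?_⟩⟩
  exact hane ⟨π, hc⟩ h0

/-- `4 √n` labels are enough. -/
theorem numeric {n m : ℕ} (hn : 1 ≤ n) (hm : 16 * n ≤ m ^ 2) :
    n * n.choose m < m.factorial := by
  have hm1 : 1 ≤ m := by
    by_contra h0
    have : m = 0 := by omega
    subst this
    omega
  have hf : (0 : ℝ) < (m.factorial : ℝ) := by exact_mod_cast Nat.factorial_pos m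
  have h1 : (n.choose m : ℝ) ≤ (n : ℝ) ^ m / (m.factorial : ℝ) := Nat.choose_le_pow_div m n
  -- m ^ m ≤ m! e ^ m
  have h2 : (m : ℝ) ^ m ≤ (m.factorial : ℝ) * Real.exp m := by
    have := Real.pow_div_factorial_le_exp (x := (m : ℝ)) (by positivity) m
    rw [div_le_iff₀ hf] at this
    linarith
  have h3 : Real.exp (m : ℝ) ^ 2 ≤ 8 ^ m := by
    rw [← Real.exp_nat_mul]
    have h4 : Real.exp (((2 : ℕ) : ℝ) * m) = (Real.exp 1 ^ 2) ^ m := by
      rw [← Real.exp_nat_mul, ← Real.exp_nat_mul]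
      congr 1
      push_cast
      ring
    rw [h4]
    apply pow_le_pow_left₀ (by positivity)
    have h5 := Real.exp_one_lt_d9
    have h6 : (0 : ℝ) < Real.exp 1 := Real.exp_pos 1
    nlinarith
  -- (16 n)^m ≤ (m^2)^m ≤ (m!)^2 8^m
  have h4 : ((16 : ℝ) * n) ^ m ≤ ((m : ℝ) ^ 2) ^ m := by
    apply pow_le_pow_left₀ (by positivity)
    exact_mod_cast hm
  have h5 : ((m : ℝ) ^ 2) ^ m ≤ (m.factorial : ℝ) ^ 2 * 8 ^ m := by
    calc ((m : ℝ) ^ 2) ^ m = ((m : ℝ) ^ m) ^ 2 := by rw [← pow_mul, ← pow_mul, mul_comm]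
      _ ≤ ((m.factorial : ℝ) * Real.exp m) ^ 2 := pow_le_pow_left₀ (by positivity) h2 2
      _ = (m.factorial : ℝ) ^ 2 * Real.exp m ^ 2 := by ring
      _ ≤ _ := by
        apply mul_le_mul_of_nonneg_left h3 (by positivity)
  have h6 : (2 : ℝ) ^ m * (n : ℝ) ^ m ≤ (m.factorial : ℝ) ^ 2 := by
    have h7 : ((16 : ℝ) * n) ^ m = 8 ^ m * (2 ^ m * (n : ℝ) ^ m) := by
      rw [← mul_pow, ← mul_pow]
      congr 1
      ring
    rw [h7] at h4
    have h8 : (0 : ℝ) < 8 ^ m := by positivity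
    have h9 : (8 : ℝ) ^ m * (2 ^ m * (n : ℝ) ^ m) ≤ 8 ^ m * (m.factorial : ℝ) ^ 2 := by
      linarith
    exact le_of_mul_le_mul_left h9 h8
  -- n < 2 ^ m
  have h7 : n < 2 ^ m := by
    have h8 : ∀ j : ℕ, j ^ 2 < 16 * 2 ^ j := by
      intro j
      induction j with
      | zero => norm_num
      | succ j ih =>
        rcases Nat.lt_or_ge j 3 with hj | hj
        · interval_cases j <;> norm_num
        · rw [pow_succ 2 j]
          nlinarith
    have h9 := h8 m
    omega
  have h8 : (n : ℝ) < 2 ^ m := by exact_mod_cast h7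
  have hnpos : (0 : ℝ) < (n : ℝ) := by exact_mod_cast hn
  have h9 : (n : ℝ) * (n : ℝ) ^ m < (m.factorial : ℝ) ^ 2 :=
    lt_of_lt_of_le (mul_lt_mul_of_pos_right h8 (by positivity)) h6
  have h10 : (n : ℝ) * (n.choose m : ℝ) < (m.factorial : ℝ) := by
    calc (n : ℝ) * (n.choose m : ℝ) ≤ (n : ℝ) * ((n : ℝ) ^ m / (m.factorial : ℝ)) :=
          mul_le_mul_of_nonneg_left h1 hnpos.le
      _ = (n : ℝ) * (n : ℝ) ^ m / (m.factorial : ℝ) := by ring
      _ < (m.factorial : ℝ) := by
        rw [div_lt_iff₀ hf]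
        nlinarith
  exact_mod_cast h10

end Pool.Agent.LocalCount
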