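import Pool.Agent.Lib.LocalCount.Abstract

/-! Two remarks on exact counting: when only the numbers of points with each view are seen, the
bound is better; `n` labels suffice. -/

set_option autoImplicit false

namespace Pool.Agent.LocalCount.Tables

open Finset Equiv Pool.Agent.LocalCount

/-- The view of length `r` from the vertex `v`: the labels of `v, π v, …, π^(r-1) v`. -/
def view {n k : ℕ} (π : Perm (Fin n)) (y : Fin n → Fin k) (r : ℕ) (v : Fin n) : Fin r → Fin k :=
  fun i => y ((π ^ (i : ℕ)) v)

/-- The table of the views: how many points have each of the possible views. -/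
def table {n r k : ℕ} (f : Fin n → Fin r → Fin k) (u : Fin r → Fin k) : ℕ :=
  (univ.filter fun v => f v = u).card

/-- In every view `(a, b)` one has `b = a + 1` modulo `n`. -/
def Step {n : ℕ} (f : Fin n → Fin 2 → Fin n) : Prop :=
  ∀ v, (f v 1 : ℕ) = ((f v 0 : ℕ) + 1) % n

variable {n k r : ℕ}

theorem view_eq_of {π π' : Perm (Fin n)} {y : Fin n → Fin k}
    (h : ∀ i < r, ∀ v, y ((π ^ i) v) = y ((π' ^ i) v)) : view π y r = view π' y r := by
  funext v i
  exact h i i.2 v

theorem table_conj (π g : Perm (Fin n)) (y : Fin n → Fin k) :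
    table (view (g * π * g⁻¹) y r) = table (view π (y ∘ g) r) := by
  funext u
  unfold table
  have hv : ∀ v, view (g * π * g⁻¹) y r v = view π (y ∘ g) r (g⁻¹ v) := by
    intro v
    funext i
    simp only [view, Function.comp]
    rw [conj_pow]
    simp [Perm.mul_apply]
  apply Finset.card_bij (fun v _ => g⁻¹ v)
  · intro v hv'
    simp only [mem_filter, mem_univ, true_and] at hv' ⊢
    rw [← hv v]; exact hv'
  · intro a _ b _ hab
    exact (g⁻¹).injective hab
  · intro b hb
    refine ⟨g b, ?_, by simp⟩
    simp only [mem_filter, mem_univ, true_and] at hb ⊢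
    rw [hv (g b)]; simpa using hb

/-- The weight depends only on the numbers of points with each view. -/
theorem tables (hk : 1 ≤ k) (hr : 1 ≤ r) (hn : r * (k ^ (r - 1) + 1) ≤ n)
    (w : ((Fin r → Fin k) → ℕ) → ℝ) (t : ℝ)
    (H : ∀ π : Perm (Fin n), (∀ v, r ≤ Function.minimalPeriod π v) → ¬ Connected π →
      ∑ y : Fin n → Fin k, w (table (view π y r)) = t) (π : Perm (Fin n)) (hc : Connected π) :
    ∑ y : Fin n → Fin k, w (table (view π y r)) = t := by
  have : Nonempty (Fin k) := ⟨⟨0, hk⟩⟩
  exact abstract (κ := Fin k) hr (by rw [Fintype.card_fin]; exact hn)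
    (fun π y => w (table (view π y r))) (fun π g y => by rw [table_conj])
    (fun π π' y _ _ h => by rw [view_eq_of h]) t H π hc

theorem partC (π : Perm (Fin n)) :
    Connected π ↔ ∃ y : Fin n → Fin n, Step (view π y 2) := by
  classical
  constructor
  · intro hc
    rcases Nat.lt_or_ge n 2 with hn | hn
    · refine ⟨id, fun v => ?_⟩
      have h1 := (view π id 2 v 1).2
      have h2 := v.2
      have : n = 1 := by omega
      subst this
      omega
    · obtain ⟨h1, h2⟩ := isCycle_of_connected hn hc
      have ho : orderOf π = n := by rw [h1.orderOf, h2]; simp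
      let v0 : Fin n := ⟨0, by omega⟩
      let φ : Fin n → Fin n := fun j => (π ^ (j : ℕ)) v0
      have hφ : Function.Injective φ := by
        intro a b hab
        exact Fin.ext (pow_injOn hn hc v0 a.2 b.2 hab)
      have hb : Function.Bijective φ := (Finite.injective_iff_bijective).1 hφ
      let e := Equiv.ofBijective φ hb
      refine ⟨e.symm, fun v => ?_⟩
      obtain ⟨j, rfl⟩ := e.surjective v
      have hj : (view π e.symm 2 (e j)) 0 = j := by simp [view]
      have hj1 : (view π e.symm 2 (e j)) 1 = ⟨((j : ℕ) + 1) % n, Nat.mod_lt _ (by omega)⟩ := by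
        simp only [view, Fin.val_one, pow_one]
        rw [Equiv.symm_apply_eq]
        change π ((π ^ (j : ℕ)) v0) = (π ^ (((j : ℕ) + 1) % n)) v0
        rw [← Perm.mul_apply, ← pow_succ']
        have : π ^ (((j : ℕ) + 1) % n) = π ^ ((j : ℕ) + 1) := by
          have h5 := pow_mod_orderOf π ((j : ℕ) + 1)
          rwa [ho] at h5
        rw [this]
      rw [hj, hj1]
  · rintro ⟨y, hy⟩ a b
    have hstep : ∀ v, (y (π v) : ℕ) = ((y v : ℕ) + 1) % n := by
      intro v
      have := hy v
      simpa [view] using this
    have hpow : ∀ i : ℕ, (y ((π ^ i) a) : ℕ) = ((y a : ℕ) + i) % n := by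
      intro i
      induction i with
      | zero => simp [Nat.mod_eq_of_lt (y a).2]
      | succ i ih =>
        rw [pow_succ', Perm.mul_apply, hstep, ih, Nat.mod_add_mod, Nat.add_assoc]
    have hinj : Function.Injective fun j : Fin n => (π ^ (j : ℕ)) a := by
      intro i j hij
      have h1 : ((y a : ℕ) + i) % n = ((y a : ℕ) + j) % n := by
        rw [← hpow i, ← hpow j]
        exact congrArg (fun x => (y x : ℕ)) hij
      have h2 : (i : ℕ) ≡ j [MOD n] := Nat.ModEq.add_left_cancel' _ h1
      have h3 : (i : ℕ) % n = (j : ℕ) % n := h2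
      rw [Nat.mod_eq_of_lt i.2, Nat.mod_eq_of_lt j.2] at h3
      exact Fin.ext h3
    obtain ⟨j, hj⟩ := (Finite.injective_iff_surjective.1 hinj) b
    exact ⟨(j : ℕ), by simpa using hj⟩

end Pool.Agent.LocalCount.Tables
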